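import Pool.Agent.H27.G.R_seed8.H448R2.GC.Defs
import Pool.Agent.H27.G.R_seed8.H345R2.Chi

/-! TEAM GC, task X1 : the functional equation (helper109). -/

open Complex MeasureTheory Filter Topology

namespace Pool.Agent.H448R2.GC

namespace X1

theorem XX_eq (s : ℂ) : XX s = H345.XX s := rfl

theorem norm_XX_conj (s : ℂ) : ‖XX ((starRingEnd ℂ) s)‖ = ‖XX s‖ := by
  rw [XX_eq, XX_eq, H345.Chi.XX_conj, RCLike.norm_conj]

theorem contAt_XX (s : ℂ) (hs : 0 < s.re) : ContinuousAt XX s := by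
  have h2 : (2 * (Real.pi : ℂ)) ≠ 0 := H345.Chi.two_pi_ne
  unfold XX
  refine ContinuousAt.mul (ContinuousAt.mul (ContinuousAt.mul continuousAt_const ?_) ?_) ?_
  · exact ContinuousAt.const_cpow continuousAt_id.neg (Or.inl h2)
  · apply (Complex.differentiableAt_Gamma s ?_).continuousAt
    intro m h
    rw [h] at hs
    simp at hs
    have : (0 : ℝ) ≤ m := Nat.cast_nonneg m
    linarith
  · fun_prop

theorem XX_add_two (s : ℂ) (hs : 0 < s.re) :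
    XX (s + 2) = -(s * (s + 1)) / (4 * (Real.pi : ℂ) ^ 2) * XX s := by
  have h2 : (2 * (Real.pi : ℂ)) ≠ 0 := H345.Chi.two_pi_ne
  have hpi : (Real.pi : ℂ) ≠ 0 := by exact_mod_cast Real.pi_ne_zero
  have h0 : s ≠ 0 := by intro h; rw [h] at hs; simp at hs
  have h1 : s + 1 ≠ 0 := by
    intro h
    have : (s + 1).re = 0 := by rw [h]; simp
    simp at this
    linarith
  have hG : Complex.Gamma (s + 2) = (s + 1) * (s * Complex.Gamma s) := by
    have : s + 2 = (s + 1) + 1 := by ring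
    rw [this, Complex.Gamma_add_one _ h1, Complex.Gamma_add_one _ h0]
  have hc : Complex.cos (Real.pi * (s + 2) / 2) = -Complex.cos (Real.pi * s / 2) := by
    have : (Real.pi : ℂ) * (s + 2) / 2 = Real.pi * s / 2 + Real.pi := by ring
    rw [this, Complex.cos_add_pi]
  have hp : (2 * (Real.pi : ℂ)) ^ (-(s + 2)) = (2 * (Real.pi : ℂ)) ^ (-s) * (4 * (Real.pi : ℂ) ^ 2)⁻¹ := by
    have : -(s + 2) = -s + (-2 : ℂ) := by ring
    rw [this, Complex.cpow_add _ _ h2]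
    congr 1
    have h3 : (-2 : ℂ) = -((2 : ℕ) : ℂ) := by norm_num
    rw [h3, Complex.cpow_neg, Complex.cpow_natCast]
    congr 1
    ring
  rw [XX, XX, hG, hc, hp]
  field_simp

theorem XX_small : ∃ C : ℝ, 0 < C ∧ ∀ w : ℂ, 1 / 2 ≤ w.re → w.re ≤ 4 → |w.im| ≤ 1 → ‖XX w‖ ≤ C := by
  have hK : IsCompact ((Set.Icc (1 / 2 : ℝ) 4) ×ℂ (Set.Icc (-1 : ℝ) 1)) :=
    isCompact_Icc.reProdIm isCompact_Icc
  have hc : ContinuousOn XX ((Set.Icc (1 / 2 : ℝ) 4) ×ℂ (Set.Icc (-1 : ℝ) 1)) := by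
    intro s hs
    apply (contAt_XX s _).continuousWithinAt
    rw [Complex.mem_reProdIm] at hs
    linarith [hs.1.1]
  obtain ⟨C, hC⟩ := hK.exists_bound_of_continuousOn hc
  refine ⟨|C| + 1, by positivity, ?_⟩
  intro w h1 h2 h3
  have : w ∈ ((Set.Icc (1 / 2 : ℝ) 4) ×ℂ (Set.Icc (-1 : ℝ) 1)) := by
    rw [Complex.mem_reProdIm]
    exact ⟨⟨h1, h2⟩, abs_le.mp h3⟩
  have := hC w this
  linarith [le_abs_self C]

theorem XX_base : ∃ C : ℝ, 0 < C ∧ ∀ w : ℂ, 1 / 2 ≤ w.re → w.re ≤ 4 →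
    ‖XX w‖ ≤ C * (1 + |w.im|) ^ (w.re - 1 / 2) := by
  obtain ⟨C, hC, hs⟩ := XX_small
  obtain ⟨K, hK, hL⟩ := H345.Chi.XX_size
  refine ⟨C + Real.exp K, by positivity, ?_⟩
  intro w h1 h2
  have hE := Real.exp_pos K
  have hone : (1 : ℝ) ≤ (1 + |w.im|) ^ (w.re - 1 / 2) :=
    Real.one_le_rpow (by linarith [abs_nonneg w.im]) (by linarith)
  have big : ∀ v : ℂ, 1 / 2 ≤ v.re → v.re ≤ 4 → 1 ≤ v.im →
      ‖XX v‖ ≤ (C + Real.exp K) * (1 + |v.im|) ^ (v.re - 1 / 2) := by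
    intro v g1 g2 g3
    have g4 := (hL v g1 g2 g3).2
    have g5 : v.im ^ (v.re - 1 / 2) ≤ (1 + |v.im|) ^ (v.re - 1 / 2) := by
      apply Real.rpow_le_rpow (by linarith) _ (by linarith)
      linarith [le_abs_self v.im]
    have g6 : 0 ≤ (1 + |v.im|) ^ (v.re - 1 / 2) := by positivity
    calc ‖XX v‖ ≤ Real.exp K * v.im ^ (v.re - 1 / 2) := g4
      _ ≤ Real.exp K * (1 + |v.im|) ^ (v.re - 1 / 2) := by gcongr
      _ ≤ (C + Real.exp K) * (1 + |v.im|) ^ (v.re - 1 / 2) := by gcongr; linarith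
  rcases le_total |w.im| 1 with h3 | h3
  · have := hs w h1 h2 h3
    calc ‖XX w‖ ≤ C * 1 := by linarith
      _ ≤ (C + Real.exp K) * (1 + |w.im|) ^ (w.re - 1 / 2) := by gcongr; linarith
  · rcases le_total 0 w.im with h4 | h4
    · rw [abs_of_nonneg h4] at h3
      exact big w h1 h2 h3
    · rw [abs_of_nonpos h4] at h3
      have h5 := big ((starRingEnd ℂ) w) (by simpa using h1) (by simpa using h2) (by simpa using h3)
      rw [norm_XX_conj] at h5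
      simpa using h5

theorem XX_ind (n : ℕ) : ∃ C : ℝ, 0 < C ∧ ∀ w : ℂ, 1 / 2 ≤ w.re → w.re ≤ 2 * n + 4 →
    ‖XX w‖ ≤ C * (1 + |w.im|) ^ (w.re - 1 / 2) := by
  induction n with
  | zero => simpa using XX_base
  | succ n ih =>
    obtain ⟨C₀, hC₀, h₀⟩ := XX_base
    obtain ⟨C, hC, h⟩ := ih
    refine ⟨C₀ + (2 * n + 7) ^ 2 * C, by positivity, ?_⟩
    intro w h1 h2
    rcases le_total w.re 4 with h4 | h4
    · have := h₀ w h1 h4
      refine this.trans ?_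
      have hp : 0 ≤ (1 + |w.im|) ^ (w.re - 1 / 2) := by positivity
      gcongr
      have : 0 ≤ (2 * (n : ℝ) + 7) ^ 2 * C := by positivity
      linarith
    · set s := w - 2 with hs
      have hw : w = s + 2 := by rw [hs]; ring
      have hre : s.re = w.re - 2 := by rw [hs]; simp
      have him : s.im = w.im := by rw [hs]; simp
      push_cast at h2
      have h5 := h s (by rw [hre]; linarith) (by rw [hre]; linarith)
      have hs0 : 0 < s.re := by rw [hre]; linarith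
      rw [hw, XX_add_two s hs0, norm_mul, ← hw]
      have hb : 0 ≤ |w.im| := abs_nonneg _
      have h6 : ‖s‖ ≤ (2 * n + 6) * (1 + |w.im|) := by
        have := Complex.norm_le_abs_re_add_abs_im s
        rw [him, abs_of_pos hs0, hre] at this
        nlinarith [(Nat.cast_nonneg n : (0 : ℝ) ≤ n)]
      have h7 : ‖s + 1‖ ≤ (2 * n + 7) * (1 + |w.im|) := by
        have := norm_add_le s 1
        rw [norm_one] at this
        nlinarith
      have h8 : ‖-(s * (s + 1)) / (4 * (Real.pi : ℂ) ^ 2)‖ ≤ (2 * n + 7) ^ 2 * (1 + |w.im|) ^ 2 := by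
        rw [norm_div, norm_neg, norm_mul]
        have h9 : (1 : ℝ) ≤ ‖4 * (Real.pi : ℂ) ^ 2‖ := by
          rw [norm_mul, norm_pow, Complex.norm_real, Real.norm_of_nonneg Real.pi_pos.le]
          norm_num
          nlinarith [Real.pi_gt_three]
        rw [div_le_iff₀ (by linarith)]
        calc ‖s‖ * ‖s + 1‖ ≤ ((2 * n + 6) * (1 + |w.im|)) * ((2 * n + 7) * (1 + |w.im|)) := by
              gcongr
          _ ≤ (2 * n + 7) ^ 2 * (1 + |w.im|) ^ 2 * 1 := by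
              have : 0 ≤ (1 + |w.im|) ^ 2 := by positivity
              nlinarith [(Nat.cast_nonneg n : (0 : ℝ) ≤ n)]
          _ ≤ (2 * n + 7) ^ 2 * (1 + |w.im|) ^ 2 * ‖4 * (Real.pi : ℂ) ^ 2‖ := by gcongr
      have hbase : 0 < 1 + |w.im| := by linarith
      have h10 : (1 + |w.im|) ^ 2 * (1 + |w.im|) ^ (s.re - 1 / 2) = (1 + |w.im|) ^ (w.re - 1 / 2) := by
        rw [← Real.rpow_natCast, ← Real.rpow_add hbase]
        congr 1
        rw [hre]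
        push_cast
        ring
      rw [him] at h5
      calc ‖-(s * (s + 1)) / (4 * (Real.pi : ℂ) ^ 2)‖ * ‖XX s‖
          ≤ ((2 * n + 7) ^ 2 * (1 + |w.im|) ^ 2) * (C * (1 + |w.im|) ^ (s.re - 1 / 2)) := by
            gcongr
        _ = ((2 * n + 7) ^ 2 * C) * ((1 + |w.im|) ^ 2 * (1 + |w.im|) ^ (s.re - 1 / 2)) := by ring
        _ = ((2 * n + 7) ^ 2 * C) * (1 + |w.im|) ^ (w.re - 1 / 2) := by rw [h10]
        _ ≤ (C₀ + (2 * n + 7) ^ 2 * C) * (1 + |w.im|) ^ (w.re - 1 / 2) := by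
            gcongr
            linarith

theorem zeta_bdd : ∃ C : ℝ, 0 < C ∧ ∀ s : ℂ, 3 / 2 ≤ s.re → ‖riemannZeta s‖ ≤ C := by
  have hsum : Summable (fun n : ℕ => 1 / ((n : ℝ) + 1) ^ (3 / 2 : ℝ)) := by
    have := (Real.summable_one_div_nat_rpow (p := 3 / 2)).mpr (by norm_num)
    have h2 := (summable_nat_add_iff 1).mpr this
    simpa using h2
  refine ⟨(∑' n : ℕ, 1 / ((n : ℝ) + 1) ^ (3 / 2 : ℝ)) + 1, ?_, ?_⟩
  · have : 0 ≤ ∑' n : ℕ, 1 / ((n : ℝ) + 1) ^ (3 / 2 : ℝ) := tsum_nonneg (fun n => by positivity)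
    linarith
  · intro s hs
    rw [zeta_eq_tsum_one_div_nat_add_one_cpow (by linarith)]
    have hle : ∀ n : ℕ, ‖1 / ((n : ℂ) + 1) ^ s‖ ≤ 1 / ((n : ℝ) + 1) ^ (3 / 2 : ℝ) := by
      intro n
      have e : ((n : ℂ) + 1) = (((n : ℝ) + 1 : ℝ) : ℂ) := by push_cast; ring
      rw [norm_div, norm_one, e, Complex.norm_cpow_eq_rpow_re_of_pos (by positivity)]
      gcongr
      linarith [(Nat.cast_nonneg n : (0 : ℝ) ≤ n)]
    have hs2 : Summable (fun n : ℕ => ‖1 / ((n : ℂ) + 1) ^ s‖) :=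
      Summable.of_nonneg_of_le (fun n => norm_nonneg _) hle hsum
    calc ‖∑' n : ℕ, 1 / ((n : ℂ) + 1) ^ s‖ ≤ ∑' n : ℕ, ‖1 / ((n : ℂ) + 1) ^ s‖ :=
          norm_tsum_le_tsum_norm hs2
      _ ≤ ∑' n : ℕ, 1 / ((n : ℝ) + 1) ^ (3 / 2 : ℝ) := hs2.tsum_le_tsum hle hsum
      _ ≤ _ := by linarith

end X1

theorem XX_upper (X₁ : ℝ) : ∃ C : ℝ, 0 < C ∧ ∀ w : ℂ, 1 / 2 ≤ w.re → w.re ≤ X₁ →
    ‖XX w‖ ≤ C * (1 + |w.im|) ^ (w.re - 1 / 2) := by
  obtain ⟨C, hC, h⟩ := X1.XX_ind ⌈X₁⌉₊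
  refine ⟨C, hC, ?_⟩
  intro w h1 h2
  apply h w h1
  have := Nat.le_ceil X₁
  linarith [(Nat.cast_nonneg ⌈X₁⌉₊ : (0 : ℝ) ≤ ⌈X₁⌉₊)]

theorem zeta_fe (w : ℂ) (hw : 0 < w.re) (hw1 : w ≠ 1) : riemannZeta (1 - w) = XX w * riemannZeta w := by
  rw [X1.XX_eq]
  apply H345.zeta_fe w _ hw1
  intro n h
  rw [h] at hw
  simp at hw
  have : (0 : ℝ) ≤ n := Nat.cast_nonneg n
  linarith

theorem zeta_refl : ∃ c : ℝ, 0 < c ∧ ∀ κ t : ℝ, 0 ≤ κ → κ ≤ 1 / 2 → 1 ≤ t →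
    c * t ^ κ * ‖riemannZeta (1 / 2 + (κ : ℂ) + (t : ℂ) * I)‖ ≤
      ‖riemannZeta (1 / 2 - (κ : ℂ) + (t : ℂ) * I)‖ := by
  obtain ⟨K, hK, hL⟩ := H345.Chi.XX_size
  refine ⟨Real.exp (-K), Real.exp_pos _, ?_⟩
  intro κ t h0 h1 ht
  set w : ℂ := 1 / 2 + (κ : ℂ) + (t : ℂ) * I with hw
  have hre : w.re = 1 / 2 + κ := by rw [hw]; simp
  have him : w.im = t := by rw [hw]; simp
  have hw1 : w ≠ 1 := by
    intro h
    have : w.im = 0 := by rw [h]; simp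
    rw [him] at this
    linarith
  have e1 : (1 / 2 - (κ : ℂ) + (t : ℂ) * I) = (starRingEnd ℂ) (1 - w) := by
    apply Complex.ext
    · rw [Complex.conj_re, Complex.sub_re, hre]; simp; ring
    · rw [Complex.conj_im, Complex.sub_im, him]; simp
  rw [e1, riemannZeta_conj, RCLike.norm_conj, zeta_fe w (by rw [hre]; linarith) hw1, norm_mul]
  have h2 := (hL w (by rw [hre]; linarith) (by rw [hre]; linarith) (by rw [him]; exact ht)).1
  rw [him, hre] at h2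
  have e2 : (1 / 2 + κ - 1 / 2 : ℝ) = κ := by ring
  rw [e2] at h2
  rw [X1.XX_eq]
  gcongr

theorem zeta_left (X₁ : ℝ) : ∃ C : ℝ, 0 < C ∧ ∀ w : ℂ, -X₁ ≤ w.re → w.re ≤ -(1 / 2) →
    ‖riemannZeta w‖ ≤ C * (1 + |w.im|) ^ (1 / 2 - w.re) := by
  obtain ⟨C, hC, h⟩ := XX_upper (1 + X₁)
  obtain ⟨C', hC', h'⟩ := X1.zeta_bdd
  refine ⟨C * C', by positivity, ?_⟩
  intro w h1 h2
  have hre : (1 - w).re = 1 - w.re := by simp
  have him : |(1 - w).im| = |w.im| := by simp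
  have hw1 : (1 - w) ≠ 1 := by
    intro h3
    have : (1 - w).re = 1 := by rw [h3]; simp
    rw [hre] at this
    linarith
  have e : w = 1 - (1 - w) := by ring
  rw [e, zeta_fe (1 - w) (by rw [hre]; linarith) hw1, norm_mul, ← e]
  have h3 := h (1 - w) (by rw [hre]; linarith) (by rw [hre]; linarith)
  rw [him, hre] at h3
  have h4 := h' (1 - w) (by rw [hre]; linarith)
  have e2 : (1 - w.re - 1 / 2 : ℝ) = 1 / 2 - w.re := by ring
  rw [e2] at h3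
  calc ‖XX (1 - w)‖ * ‖riemannZeta (1 - w)‖ ≤ (C * (1 + |w.im|) ^ (1 / 2 - w.re)) * C' := by gcongr
    _ = C * C' * (1 + |w.im|) ^ (1 / 2 - w.re) := by ring

end Pool.Agent.H448R2.GC
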