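import Mathlib

/-! TEAM GC (MP_0575cc_nt, Good–Churchhouse): definitions. -/

open Complex MeasureTheory Filter Topology

namespace Pool.Agent.H448R2.GC

/-- the Mertens function -/
noncomputable def Mer (x : ℝ) : ℝ :=
  ∑ n ∈ Finset.Icc 1 ⌊x⌋₊, ((ArithmeticFunction.moebius n : ℤ) : ℝ)

/-- the sum of `μ(n)` over `|n - x| < H/2` -/
noncomputable def MH (x H : ℝ) : ℝ :=
  ∑ n ∈ (Finset.range (⌈x + H⌉₊ + 1)).filter (fun n : ℕ => |(n : ℝ) - x| < H / 2),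
    ((ArithmeticFunction.moebius n : ℤ) : ℝ)

/-- the variance of the problem -/
noncomputable def VV (X H : ℝ) : ℝ := (1 / X) * ∫ x in X..2 * X, MH x H ^ 2

/-- smooth cutoffs: `cu k c r = 1` for `r ≤ 0`, `= 0` for `r > k c`
(the probability that `r ≤ U_1 + ... + U_k`, with `U_i` uniform on `[0,c]`) -/
noncomputable def cu : ℕ → ℝ → ℝ → ℝ
  | 0, _, r => if r ≤ 0 then 1 else 0
  | (k + 1), c, r => (1 / c) * ∫ τ in (0 : ℝ)..c, cu k c (r - τ)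

/-- the entire function `((e^{cz} - 1) / (cz))^k` -/
noncomputable def Ps (k : ℕ) (c : ℝ) (z : ℂ) : ℂ := (∫ t in (0 : ℝ)..1, cexp (c * z * t)) ^ k

/-- the kernel `e^{Dz} Ps(z) / z` on the line `z = x + iy` -/
noncomputable def ker (k : ℕ) (c D x y : ℝ) : ℂ :=
  cexp ((D : ℂ) * ((x : ℂ) + (y : ℂ) * I)) * Ps k c ((x : ℂ) + (y : ℂ) * I) /
    ((x : ℂ) + (y : ℂ) * I)

/-- smoothed partial sums of zeta -/
noncomputable def cs (k : ℕ) (c D : ℝ) (s : ℂ) : ℂ :=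
  ∑ m ∈ Finset.Icc 1 ⌊Real.exp (D + k * c)⌋₊, (cu k c (Real.log m - D) : ℂ) * (m : ℂ) ^ (-s)

/-- smoothed partial sums of `1/zeta` -/
noncomputable def fs (k : ℕ) (c D : ℝ) (s : ℂ) : ℂ :=
  ∑ n ∈ Finset.Icc 1 ⌊Real.exp (D + k * c)⌋₊,
    (((ArithmeticFunction.moebius n : ℤ) : ℂ)) * (cu k c (Real.log n - D) : ℂ) * (n : ℂ) ^ (-s)

/-- the factor of the functional equation `ζ(1-s) = XX(s) ζ(s)` -/
noncomputable def XX (s : ℂ) : ℂ :=
  2 * (2 * (Real.pi : ℂ)) ^ (-s) * Complex.Gamma s * Complex.cos (Real.pi * s / 2)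

/-- Gaussian weight, total mass one -/
noncomputable def gw (τ Δ t : ℝ) : ℝ := Real.exp (-((t - τ) / Δ) ^ 2) / (Δ * Real.sqrt Real.pi)

/-- Dirichlet polynomial of a finite set of integers with Moebius coefficients -/
noncomputable def MM (S : Finset ℕ) (s : ℂ) : ℂ :=
  ∑ n ∈ S, (((ArithmeticFunction.moebius n : ℤ) : ℂ)) * (n : ℂ) ^ (-s)

/-- coefficients of `MM S ^ 2` -/
noncomputable def aa (S : Finset ℕ) (k : ℕ) : ℂ :=
  ∑ p ∈ k.divisorsAntidiagonal, if p.1 ∈ S ∧ p.2 ∈ S then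
    (((ArithmeticFunction.moebius p.1 : ℤ) : ℂ)) * (((ArithmeticFunction.moebius p.2 : ℤ) : ℂ)) else 0

/-- coefficients of `ζ · MM S ^ 2` with shifts -/
noncomputable def cc (S : Finset ℕ) (α : ℂ) (β : ℝ) (n : ℕ) : ℂ :=
  ∑ p ∈ n.divisorsAntidiagonal,
    (p.1 : ℂ) ^ (-(1 / 2 : ℂ) - α) * (aa S p.2 * (p.2 : ℂ) ^ (-(1 / 2 : ℂ) + (β : ℂ)))

/-- the same without truncation: coefficients of `ζ / ζ^2` with shifts -/
noncomputable def hh (α : ℂ) (β : ℝ) (n : ℕ) : ℂ :=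
  ∑ p ∈ n.divisorsAntidiagonal,
    (p.1 : ℂ) ^ (-(1 / 2 : ℂ) - α) *
      ((∑ q ∈ p.2.divisorsAntidiagonal, (((ArithmeticFunction.moebius q.1 : ℤ) : ℂ)) *
        (((ArithmeticFunction.moebius q.2 : ℤ) : ℂ))) * (p.2 : ℂ) ^ (-(1 / 2 : ℂ) + (β : ℂ)))

/-- products of at most `l` distinct elements of `P` -/
noncomputable def blk (P : Finset ℕ) (l : ℕ) : Finset ℕ :=
  (P.powerset.filter (fun u => u.card ≤ l)).image (fun u => ∏ p ∈ u, p)

/-- product of two sets of integers -/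
noncomputable def mul2 (S S' : Finset ℕ) : Finset ℕ := (S ×ˢ S').image (fun q => q.1 * q.2)

/-- the mollifier set -/
noncomputable def SB (P : ℕ → Finset ℕ) (l : ℕ → ℕ) : ℕ → Finset ℕ
  | 0 => {1}
  | J + 1 => mul2 (SB P l J) (blk (P J) (l J))

/-- square norm of the coefficients -/
noncomputable def NN (S : Finset ℕ) (α : ℂ) (β : ℝ) : ENNReal :=
  ∑' n : ℕ, ENNReal.ofReal (‖cc S α β n‖ ^ 2)

/-- square norm of the coefficients at integers composed of elements of `P` -/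
noncomputable def NP (P : Finset ℕ) (S : Finset ℕ) (α : ℂ) (β : ℝ) : ENNReal :=
  ∑' n : Nat.factoredNumbers P, ENNReal.ofReal (‖cc S α β (n : ℕ)‖ ^ 2)

/-- the properties of the mollifier set used in the mean value -/
structure Good (T ν A' C : ℝ) (K₀ : ℕ) (S : Finset ℕ) : Prop where
  one_mem : 1 ∈ S
  sqf : ∀ n ∈ S, Squarefree n
  le : ∀ n ∈ S, (n : ℝ) ≤ T ^ ν
  dvd : ∀ n ∈ S, ∀ d : ℕ, d ∣ n → d ∈ S
  summ : ∀ (α : ℂ) (β : ℝ), 1 / Real.log T ≤ α.re → α.re ≤ A' / Real.log T →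
    |β| ≤ A' / Real.log T → Summable (fun n : ℕ => ‖cc S α β n‖ ^ 2)
  bound : ∀ (α : ℂ) (β : ℝ), 1 / Real.log T ≤ α.re → α.re ≤ A' / Real.log T →
    |β| ≤ A' / Real.log T →
    ∑' n : ℕ, ‖cc S α β n‖ ^ 2 ≤ C * Real.log T * (1 + Real.log T * |α.im|) ^ K₀

/-- the left line `1/2 - A / log T` -/
noncomputable def sm (A T : ℝ) : ℝ := 1 / 2 - A / Real.log T

end Pool.Agent.H448R2.GC
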