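import Pool.Agent.H27.G.R_seed8.H448R2.GC.Defs

/-! TEAM GC, task K1 (helper187): the cutoffs. -/

open Complex MeasureTheory Filter Topology

namespace Pool.Agent.H448R2.GC

namespace K1

lemma good (c : ℝ) (hc : 0 < c) (k : ℕ) : Antitone (cu k c) ∧
    (∀ r, 0 ≤ cu k c r ∧ cu k c r ≤ 1) ∧ (∀ r ≤ 0, cu k c r = 1) ∧
    (∀ r, k * c < r → cu k c r = 0) := by
  induction k with
  | zero =>
    refine ⟨?_, ?_, ?_, ?_⟩
    · intro a b hab
      simp only [cu]
      split_ifs with h1 h2
      · exact le_rfl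
      · exact absurd (hab.trans h1) h2
      · exact zero_le_one
      · exact le_rfl
    · intro r
      simp only [cu]
      split_ifs <;> norm_num
    · intro r hr
      simp [cu, hr]
    · intro r hr
      have hr' : ¬ r ≤ 0 := by
        push_cast at hr
        linarith
      simp [cu, hr']
  | succ k ih =>
    obtain ⟨hanti, hb, h1, h0⟩ := ih
    have hint : ∀ r a b : ℝ, IntervalIntegrable (fun τ => cu k c (r - τ)) volume a b := by
      intro r a b
      apply Monotone.intervalIntegrable
      intro x y hxy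
      exact hanti (by linarith)
    have hc' : 0 < 1 / c := by positivity
    refine ⟨?_, ?_, ?_, ?_⟩
    · intro a b hab
      simp only [cu]
      apply mul_le_mul_of_nonneg_left _ hc'.le
      apply intervalIntegral.integral_mono_on hc.le (hint b 0 c) (hint a 0 c)
      intro τ _
      exact hanti (by linarith)
    · intro r
      simp only [cu]
      constructor
      · apply mul_nonneg hc'.le
        apply intervalIntegral.integral_nonneg hc.le
        intro τ _
        exact (hb _).1
      · have : ∫ τ in (0 : ℝ)..c, cu k c (r - τ) ≤ ∫ _τ in (0 : ℝ)..c, (1 : ℝ) := by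
          apply intervalIntegral.integral_mono_on hc.le (hint r 0 c) (by simp)
          intro τ _
          exact (hb _).2
        rw [intervalIntegral.integral_const, smul_eq_mul, mul_one, sub_zero] at this
        calc 1 / c * ∫ τ in (0 : ℝ)..c, cu k c (r - τ) ≤ 1 / c * c :=
              mul_le_mul_of_nonneg_left this hc'.le
          _ = 1 := by field_simp
    · intro r hr
      simp only [cu]
      have : ∫ τ in (0 : ℝ)..c, cu k c (r - τ) = ∫ _τ in (0 : ℝ)..c, (1 : ℝ) := by
        apply intervalIntegral.integral_congr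
        intro τ hτ
        rw [Set.uIcc_of_le hc.le] at hτ
        exact h1 _ (by linarith [hτ.1])
      rw [this, intervalIntegral.integral_const, smul_eq_mul, mul_one, sub_zero]
      field_simp
    · intro r hr
      simp only [cu]
      have : ∫ τ in (0 : ℝ)..c, cu k c (r - τ) = ∫ _τ in (0 : ℝ)..c, (0 : ℝ) := by
        apply intervalIntegral.integral_congr
        intro τ hτ
        rw [Set.uIcc_of_le hc.le] at hτ
        apply h0
        push_cast at hr
        linarith [hτ.2]
      rw [this]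
      simp

lemma cu_int (c : ℝ) (hc : 0 < c) (k : ℕ) (a b : ℝ) :
    IntervalIntegrable (cu k c) volume a b :=
  (good c hc k).1.intervalIntegrable

lemma cu_succ_eq (c : ℝ) (hc : 0 < c) (k : ℕ) (r : ℝ) : cu (k + 1) c r =
    (1 / c) * ((∫ u in (0 : ℝ)..r, cu k c u) - ∫ u in (0 : ℝ)..(r - c), cu k c u) := by
  have h : ∫ τ in (0 : ℝ)..c, cu k c (r - τ) = ∫ u in (r - c)..(r - 0), cu k c u :=
    intervalIntegral.integral_comp_sub_left (fun u => cu k c u) r
  rw [intervalIntegral.integral_interval_sub_left (cu_int c hc k _ _) (cu_int c hc k _ _)]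
  rw [sub_zero] at h
  rw [← h]
  rfl

end K1

theorem cu_nonneg (k : ℕ) (c r : ℝ) (hc : 0 < c) : 0 ≤ cu k c r := ((K1.good c hc k).2.1 r).1
theorem cu_le_one (k : ℕ) (c r : ℝ) (hc : 0 < c) : cu k c r ≤ 1 := ((K1.good c hc k).2.1 r).2
theorem cu_one (k : ℕ) (c r : ℝ) (hc : 0 < c) (hr : r ≤ 0) : cu k c r = 1 :=
  (K1.good c hc k).2.2.1 r hr
theorem cu_zero (k : ℕ) (c r : ℝ) (hc : 0 < c) (hr : k * c < r) : cu k c r = 0 :=
  (K1.good c hc k).2.2.2 r hr
theorem cu_anti (k : ℕ) (c : ℝ) (hc : 0 < c) : Antitone (cu k c) := (K1.good c hc k).1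

theorem cu_cont (k : ℕ) (c : ℝ) (hc : 0 < c) : Continuous (cu (k + 1) c) := by
  have h : cu (k + 1) c = fun r => (1 / c) * ((∫ u in (0 : ℝ)..r, cu k c u) -
      ∫ u in (0 : ℝ)..(r - c), cu k c u) := by
    funext r
    exact K1.cu_succ_eq c hc k r
  rw [h]
  have hp : Continuous (fun r : ℝ => ∫ u in (0 : ℝ)..r, cu k c u) :=
    intervalIntegral.continuous_primitive (fun a b => K1.cu_int c hc k a b) 0
  exact continuous_const.mul (hp.sub (hp.comp (continuous_id.sub continuous_const)))

/-- derivative of the cutoff -/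
theorem cu_deriv (k : ℕ) (c r : ℝ) (hc : 0 < c) :
    HasDerivAt (cu (k + 2) c) ((cu (k + 1) c r - cu (k + 1) c (r - c)) / c) r := by
  have hf := cu_cont k c hc
  have h : cu (k + 2) c = fun r => (1 / c) * ((∫ u in (0 : ℝ)..r, cu (k + 1) c u) -
      ∫ u in (0 : ℝ)..(r - c), cu (k + 1) c u) := by
    funext r
    exact K1.cu_succ_eq c hc (k + 1) r
  rw [h]
  have hd : ∀ x : ℝ, HasDerivAt (fun r : ℝ => ∫ u in (0 : ℝ)..r, cu (k + 1) c u)
      (cu (k + 1) c x) x := fun x => (hf.integral_hasStrictDerivAt 0 x).hasDerivAt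
  have h2 : HasDerivAt (fun r : ℝ => ∫ u in (0 : ℝ)..(r - c), cu (k + 1) c u)
      (cu (k + 1) c (r - c)) r := HasDerivAt.comp_sub_const r c (hd (r - c))
  have h3 := ((hd r).sub h2).const_mul (1 / c)
  refine h3.congr_deriv ?_
  ring

end Pool.Agent.H448R2.GC
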