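import Pool.Agent.H27.G.R_seed8.H448R2.GC.Defs

/-! TEAM GC: task K2, size of `Ps` and of the kernel. -/

open Complex MeasureTheory Filter Topology

namespace Pool.Agent.H448R2.GC

namespace K2

/-- inner integral -/
noncomputable def J (c : ℝ) (z : ℂ) : ℂ := ∫ t in (0 : ℝ)..1, cexp (c * z * t)

lemma Ps_eq (k : ℕ) (c : ℝ) (z : ℂ) : Ps k c z = J c z ^ k := rfl

lemma J_triv (c : ℝ) (hc : 0 < c) (z : ℂ) : ‖J c z‖ ≤ Real.exp (c * max z.re 0) := by
  unfold J
  have h := intervalIntegral.norm_integral_le_of_norm_le_const (a := (0 : ℝ)) (b := 1)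
    (f := fun t : ℝ => cexp (c * z * t)) (C := Real.exp (c * max z.re 0)) ?_
  · simpa using h
  · intro t ht
    rw [Set.uIoc_of_le zero_le_one] at ht
    rw [Complex.norm_exp]
    apply Real.exp_le_exp.2
    have h1 : ((c : ℂ) * z * t).re = c * (z.re * t) := by
      simp [Complex.mul_re, mul_assoc]
    rw [h1]
    apply mul_le_mul_of_nonneg_left _ hc.le
    rcases le_or_gt 0 z.re with h0 | h0
    · exact (mul_le_of_le_one_right h0 ht.2).trans (le_max_left _ _)
    · exact (mul_nonpos_of_nonpos_of_nonneg h0.le ht.1.le).trans (le_max_right _ _)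

lemma J_eq (c : ℝ) (hc : c ≠ 0) (z : ℂ) (hz : z ≠ 0) :
    J c z = (cexp (c * z) - 1) / (c * z) := by
  unfold J
  have hcz : (c : ℂ) * z ≠ 0 := mul_ne_zero (by exact_mod_cast hc) hz
  rw [integral_exp_mul_complex hcz]
  simp

lemma J_zero (c : ℝ) : J c 0 = 1 := by
  unfold J
  simp

lemma J_far (c : ℝ) (hc : 0 < c) (z : ℂ) (hz : z ≠ 0) :
    ‖J c z‖ ≤ Real.exp (c * max z.re 0) * (2 / (c * ‖z‖)) := by
  rw [J_eq c hc.ne' z hz, norm_div, norm_mul, Complex.norm_real, Real.norm_of_nonneg hc.le]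
  have hz' : 0 < ‖z‖ := norm_pos_iff.2 hz
  rw [← mul_div_assoc]
  gcongr
  have h1 : ‖cexp (c * z)‖ ≤ Real.exp (c * max z.re 0) := by
    rw [Complex.norm_exp]
    apply Real.exp_le_exp.2
    simp only [Complex.mul_re, Complex.ofReal_re, Complex.ofReal_im, zero_mul, sub_zero]
    exact mul_le_mul_of_nonneg_left (le_max_left _ _) hc.le
  have h2 : (1 : ℝ) ≤ Real.exp (c * max z.re 0) := by
    apply Real.one_le_exp
    exact mul_nonneg hc.le (le_max_right _ _)
  calc ‖cexp (c * z) - 1‖ ≤ ‖cexp (c * z)‖ + ‖(1 : ℂ)‖ := norm_sub_le _ _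
    _ ≤ Real.exp (c * max z.re 0) + Real.exp (c * max z.re 0) := by
      rw [norm_one]
      linarith
    _ = _ := by ring

lemma J_bound (c : ℝ) (hc : 0 < c) (z : ℂ) :
    ‖J c z‖ ≤ Real.exp (c * max z.re 0) * (3 / (1 + c * ‖z‖)) := by
  have h0 : 0 ≤ c * ‖z‖ := mul_nonneg hc.le (norm_nonneg _)
  rcases le_or_gt (c * ‖z‖) 2 with h | h
  · refine (J_triv c hc z).trans (le_mul_of_one_le_right (Real.exp_pos _).le ?_)
    rw [one_le_div (by linarith)]
    linarith
  · have hz : z ≠ 0 := by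
      rintro rfl
      simp at h
      linarith
    refine (J_far c hc z hz).trans (mul_le_mul_of_nonneg_left ?_ (Real.exp_pos _).le)
    rw [div_le_div_iff₀ (by linarith) (by linarith)]
    linarith

lemma J_diff (c : ℝ) : Differentiable ℂ (J c) := by
  rcases eq_or_ne c 0 with rfl | hc
  · have : J 0 = fun _ => 1 := by
      funext z
      simp [J]
    rw [this]
    exact differentiable_const _
  · set E : ℂ → ℂ := fun z => cexp (c * z) / c with hE
    have hc' : (c : ℂ) ≠ 0 := by exact_mod_cast hc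
    have hEd : Differentiable ℂ E := by
      rw [hE]
      fun_prop
    have hJ : J c = dslope E 0 := by
      funext z
      rcases eq_or_ne z 0 with rfl | hz
      · rw [dslope_same, J_zero]
        have h1 : HasDerivAt (fun z : ℂ => cexp (c * z) / c) (cexp (c * 0) * (c * 1) / c) 0 :=
          (((hasDerivAt_id (0 : ℂ)).const_mul (c : ℂ)).cexp).div_const _
        rw [h1.deriv]
        simp [hc']
      · rw [dslope_of_ne _ hz, J_eq c hc z hz, slope_def_field]
        simp only [hE, mul_zero, Complex.exp_zero, sub_zero]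
        field_simp
    rw [hJ]
    have h2 : DifferentiableOn ℂ (dslope E 0) Set.univ :=
      (Complex.differentiableOn_dslope (univ_mem)).2 hEd.differentiableOn
    exact differentiableOn_univ.1 h2

lemma z_ne (x y : ℝ) (hx : x ≠ 0) : (x : ℂ) + (y : ℂ) * I ≠ 0 := by
  intro h
  apply hx
  have := congrArg Complex.re h
  simpa using this

lemma z_norm_sq (x y : ℝ) : ‖(x : ℂ) + (y : ℂ) * I‖ ^ 2 = x ^ 2 + y ^ 2 := by
  rw [← Complex.normSq_eq_norm_sq, Complex.normSq_add_mul_I]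

lemma z_norm_ge (x y : ℝ) : (|x| + |y|) / 2 ≤ ‖(x : ℂ) + (y : ℂ) * I‖ := by
  have h1 : |x| ≤ ‖(x : ℂ) + (y : ℂ) * I‖ := by
    have := Complex.abs_re_le_norm ((x : ℂ) + (y : ℂ) * I)
    simpa using this
  have h2 : |y| ≤ ‖(x : ℂ) + (y : ℂ) * I‖ := by
    have := Complex.abs_im_le_norm ((x : ℂ) + (y : ℂ) * I)
    simpa using this
  linarith

end K2

open K2

theorem Ps_bound (k : ℕ) (c : ℝ) (hc : 0 < c) (z : ℂ) :
    ‖Ps k c z‖ ≤ Real.exp (k * c * max z.re 0) * (3 / (1 + c * ‖z‖)) ^ k := by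
  rw [Ps_eq, norm_pow]
  refine (pow_le_pow_left₀ (norm_nonneg _) (J_bound c hc z) k).trans_eq ?_
  rw [mul_pow, ← Real.exp_nat_mul]
  congr 2
  ring

theorem Ps_entire (k : ℕ) (c : ℝ) : Differentiable ℂ (Ps k c) := (J_diff c).pow k

theorem Ps_zero (k : ℕ) (c : ℝ) : Ps k c 0 = 1 := by
  rw [Ps_eq, J_zero, one_pow]

theorem ker_cont (k : ℕ) (c D x : ℝ) (hx : x ≠ 0) : Continuous (ker k c D x) := by
  unfold ker
  have h1 : Continuous (fun y : ℝ => (x : ℂ) + (y : ℂ) * I) := by fun_prop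
  have h2 : Continuous (fun y : ℝ => Ps k c ((x : ℂ) + (y : ℂ) * I)) :=
    (Ps_entire k c).continuous.comp h1
  refine Continuous.div ?_ h1 fun y => z_ne x y hx
  refine Continuous.mul ?_ h2
  fun_prop

theorem ker_bound (k : ℕ) (c D x y : ℝ) (hc : 0 < c) :
    ‖ker k c D x y‖ ≤ Real.exp (D * x + k * c * max x 0) *
      (3 / (1 + c * ‖(x : ℂ) + (y : ℂ) * I‖)) ^ k / ‖(x : ℂ) + (y : ℂ) * I‖ := by
  unfold ker
  rw [norm_div, norm_mul]
  have h1 : ‖cexp ((D : ℂ) * ((x : ℂ) + (y : ℂ) * I))‖ = Real.exp (D * x) := by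
    rw [Complex.norm_exp]
    simp
  have h2 := Ps_bound k c hc ((x : ℂ) + (y : ℂ) * I)
  have h3 : ((x : ℂ) + (y : ℂ) * I).re = x := by simp
  rw [h3] at h2
  rw [h1]
  refine div_le_div_of_nonneg_right ?_ (norm_nonneg _)
  calc Real.exp (D * x) * ‖Ps k c ((x : ℂ) + (y : ℂ) * I)‖
      ≤ Real.exp (D * x) * (Real.exp (k * c * max x 0) *
        (3 / (1 + c * ‖(x : ℂ) + (y : ℂ) * I‖)) ^ k) :=
        mul_le_mul_of_nonneg_left h2 (Real.exp_pos _).le
    _ = _ := by rw [Real.exp_add]; ring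

theorem ker_integrable (k : ℕ) (hk : 1 ≤ k) (c D x : ℝ) (hc : 0 < c) (hx : x ≠ 0) :
    Integrable (ker k c D x) := by
  set A : ℝ := Real.exp (D * x + k * c * max x 0) * 3 ^ k / c * (1 + 1 / x ^ 2) with hA
  refine (integrable_inv_one_add_sq.const_mul A).mono'
    (ker_cont k c D x hx).aestronglyMeasurable (Eventually.of_forall fun y => ?_)
  refine (ker_bound k c D x y hc).trans ?_
  set r := ‖(x : ℂ) + (y : ℂ) * I‖ with hr
  have hr0 : 0 < r := norm_pos_iff.2 (z_ne x y hx)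
  have hr2 : r ^ 2 = x ^ 2 + y ^ 2 := z_norm_sq x y
  have h1 : (3 / (1 + c * r)) ^ k ≤ 3 ^ k / (c * r) := by
    rw [div_pow]
    have h2 : c * r ≤ (1 + c * r) ^ k := by
      calc c * r ≤ 1 + c * r := by linarith
        _ = (1 + c * r) ^ 1 := (pow_one _).symm
        _ ≤ (1 + c * r) ^ k := pow_le_pow_right₀ (by nlinarith [mul_pos hc hr0]) hk
    gcongr
  have hx2 : 0 < x ^ 2 := by positivity
  have h3 : 1 / (x ^ 2 + y ^ 2) ≤ (1 + 1 / x ^ 2) * (1 + y ^ 2)⁻¹ := by
    rw [← div_eq_mul_inv, div_le_div_iff₀ (by positivity) (by positivity), one_mul]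
    have h4 : (1 + 1 / x ^ 2) * (x ^ 2 + y ^ 2) = x ^ 2 + y ^ 2 + 1 + y ^ 2 / x ^ 2 := by
      field_simp
      ring
    rw [h4]
    have h5 : 0 ≤ y ^ 2 / x ^ 2 := by positivity
    linarith
  calc Real.exp (D * x + k * c * max x 0) * (3 / (1 + c * r)) ^ k / r
      ≤ Real.exp (D * x + k * c * max x 0) * (3 ^ k / (c * r)) / r := by gcongr
    _ = Real.exp (D * x + k * c * max x 0) * 3 ^ k / c * (1 / r ^ 2) := by
      field_simp
    _ = Real.exp (D * x + k * c * max x 0) * 3 ^ k / c * (1 / (x ^ 2 + y ^ 2)) := by rw [hr2]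
    _ ≤ Real.exp (D * x + k * c * max x 0) * 3 ^ k / c * ((1 + 1 / x ^ 2) * (1 + y ^ 2)⁻¹) := by
      gcongr
    _ = A * (1 + y ^ 2)⁻¹ := by rw [hA]; ring

/-- kernel bound at the scale `1 / L` -/
theorem ker_scale (η B : ℝ) (k : ℕ) (hη : 0 < η) (hB : 0 < B) (hk : 1 ≤ k) : ∃ C : ℝ, 0 < C ∧
    ∀ L D x y : ℝ, 1 ≤ L → |D| ≤ B * L → 1 / L ≤ |x| → |x| ≤ B / L →
    ‖ker k (η * L / k) D x y‖ ≤ C * (L / (1 + L * |y|) ^ (k + 1)) := by
  have hk0 : (0 : ℝ) < k := by exact_mod_cast hk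
  refine ⟨Real.exp (B ^ 2 + η * B) * (6 * k / η) ^ k * 2, by positivity, ?_⟩
  intro L D x y hL hD hx1 hx2
  have hL0 : 0 < L := by linarith
  have hc : 0 < η * L / k := by positivity
  refine (ker_bound k _ D x y hc).trans ?_
  set r := ‖(x : ℂ) + (y : ℂ) * I‖ with hr
  have hr1 : (1 + L * |y|) / (2 * L) ≤ r := by
    refine le_trans ?_ (z_norm_ge x y)
    have e1 : (1 + L * |y|) / (2 * L) = (1 / L + |y|) / 2 := by
      field_simp
    rw [e1]
    linarith
  have hy : 0 ≤ |y| := abs_nonneg y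
  have hs0 : 0 < 1 + L * |y| := by positivity
  have hr0 : 0 < r := lt_of_lt_of_le (by positivity) hr1
  have h1 : D * x ≤ B ^ 2 := by
    calc D * x ≤ |D * x| := le_abs_self _
      _ = |D| * |x| := abs_mul _ _
      _ ≤ (B * L) * (B / L) := by gcongr
      _ = B ^ 2 := by field_simp
  have h2 : k * (η * L / k) * max x 0 ≤ η * B := by
    have h3 : max x 0 ≤ B / L := max_le ((le_abs_self x).trans hx2) (by positivity)
    calc k * (η * L / k) * max x 0 ≤ k * (η * L / k) * (B / L) := by gcongr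
      _ = η * B := by field_simp
  have h4 : Real.exp (D * x + k * (η * L / k) * max x 0) ≤ Real.exp (B ^ 2 + η * B) :=
    Real.exp_le_exp.2 (add_le_add h1 h2)
  have h5 : 3 / (1 + η * L / k * r) ≤ (6 * k / η) / (1 + L * |y|) := by
    rw [div_le_div_iff₀ (by positivity) hs0]
    have h6 : η * L / k * ((1 + L * |y|) / (2 * L)) ≤ η * L / k * r := by gcongr
    have h7 : η * L / k * ((1 + L * |y|) / (2 * L)) = η / (2 * k) * (1 + L * |y|) := by
      field_simp
    rw [h7] at h6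
    have h8 : (6 * k / η) * (η / (2 * k) * (1 + L * |y|)) = 3 * (1 + L * |y|) := by
      field_simp
      ring
    have h9 : (6 * k / η) * (η / (2 * k) * (1 + L * |y|)) ≤ (6 * k / η) * (1 + η * L / k * r) := by
      apply mul_le_mul_of_nonneg_left _ (by positivity)
      linarith
    linarith
  have h10 : 1 / r ≤ 2 * L / (1 + L * |y|) := by
    rw [div_le_div_iff₀ hr0 hs0]
    rw [div_le_iff₀ (by positivity)] at hr1
    linarith
  calc Real.exp (D * x + k * (η * L / k) * max x 0) * (3 / (1 + η * L / k * r)) ^ k / r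
      = Real.exp (D * x + k * (η * L / k) * max x 0) * (3 / (1 + η * L / k * r)) ^ k * (1 / r) := by
        ring
    _ ≤ Real.exp (B ^ 2 + η * B) * ((6 * k / η) / (1 + L * |y|)) ^ k * (2 * L / (1 + L * |y|)) := by
        gcongr
    _ = _ := by
        rw [div_pow, pow_succ (1 + L * |y|) k]
        field_simp

theorem scale_integrable (L : ℝ) (j : ℕ) (hL : 1 ≤ L) (hj : 2 ≤ j) :
    Integrable (fun y : ℝ => L / (1 + L * |y|) ^ j) := by
  have hL0 : L ≠ 0 := by linarith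
  have h1 : Integrable (fun y : ℝ => (1 + ‖y‖) ^ (-(j : ℝ))) :=
    integrable_one_add_norm (by
      simp only [Module.finrank_self, Nat.cast_one]
      exact_mod_cast (by omega : 1 < j))
  have h2 := (h1.comp_mul_left' hL0).const_mul L
  refine h2.congr (Eventually.of_forall fun y => ?_)
  simp only [Real.norm_eq_abs, abs_mul, abs_of_pos (by linarith : 0 < L)]
  rw [Real.rpow_neg (by positivity), Real.rpow_natCast, div_eq_mul_inv]

theorem scale_integral (L : ℝ) (j : ℕ) (hL : 1 ≤ L) (hj : 2 ≤ j) :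
    ∫ y : ℝ, L / (1 + L * |y|) ^ j ≤ 2 := by
  have hL0 : 0 < L := by linarith
  have h1 : ∫ y : ℝ, L / (1 + L * |y|) ^ j ≤ ∫ y : ℝ, L / (1 + L * |y|) ^ 2 := by
    refine integral_mono (scale_integrable L j hL hj) (scale_integrable L 2 hL le_rfl) fun y => ?_
    have h2 : 1 ≤ 1 + L * |y| := by
      have : 0 ≤ L * |y| := by positivity
      linarith
    have h3 : (1 + L * |y|) ^ 2 ≤ (1 + L * |y|) ^ j := pow_le_pow_right₀ h2 hj
    simp only
    gcongr
  refine h1.trans ?_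
  have h4 : ∫ y : ℝ, L / (1 + L * |y|) ^ 2 = ∫ u : ℝ, 1 / (1 + |u|) ^ 2 := by
    have h5 := Measure.integral_comp_mul_left (fun u : ℝ => 1 / (1 + |u|) ^ 2) L
    have h6 : ∫ y : ℝ, L / (1 + L * |y|) ^ 2 = L * ∫ y : ℝ, 1 / (1 + |L * y|) ^ 2 := by
      rw [← integral_const_mul]
      refine integral_congr_ae (Eventually.of_forall fun y => ?_)
      simp only [abs_mul, abs_of_pos hL0]
      rw [mul_one_div]
    rw [h6, h5, abs_inv, abs_of_pos hL0, smul_eq_mul, ← mul_assoc, mul_inv_cancel₀ hL0.ne', one_mul]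
  rw [h4, integral_comp_abs (f := fun u : ℝ => 1 / (1 + u) ^ 2)]
  have h7 : ∫ x in Set.Ioi (0 : ℝ), 1 / (1 + x) ^ 2 = 0 - (-(1 + (0 : ℝ))⁻¹) := by
    refine integral_Ioi_of_hasDerivAt_of_nonneg' (g := fun x : ℝ => -(1 + x)⁻¹) ?_ ?_ ?_
    · intro x hx
      have hx0 : (0 : ℝ) ≤ x := hx
      have h8 : HasDerivAt (fun x : ℝ => 1 + x) 1 x := (hasDerivAt_id x).const_add 1
      have h9 : HasDerivAt (fun x : ℝ => -(1 + x)⁻¹) (-(-1 / (1 + x) ^ 2)) x :=
        (h8.inv (by linarith : (1 + x) ≠ 0)).neg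
      have h10 : -(-1 / (1 + x) ^ 2) = 1 / (1 + x) ^ 2 := by ring
      rw [h10] at h9
      exact h9
    · intro x hx
      positivity
    · have h10 : Tendsto (fun x : ℝ => (1 + x)⁻¹) atTop (𝓝 0) :=
        tendsto_inv_atTop_zero.comp (tendsto_atTop_add_const_left _ _ tendsto_id)
      simpa using h10.neg
  rw [h7]
  norm_num

end Pool.Agent.H448R2.GC
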