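import Pool.Agent.H27.G.R_seed8.H448R2.GC.Defs

/-! Task K3 (helper83): Mellin representation of the cutoff. -/

open Complex MeasureTheory Filter Topology

namespace Pool.Agent.H448R2.GC

namespace K3


/-- the ramp with exponential damping -/
noncomputable def g (x ρ : ℝ) : ℂ := ((max ρ 0 * Real.exp (-(x * ρ)) : ℝ) : ℂ)

theorem g_cont (x : ℝ) : Continuous (g x) := by
  unfold g
  fun_prop

theorem g_neg (x ρ : ℝ) (h : ρ ≤ 0) : g x ρ = 0 := by
  simp [g, max_eq_right h]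

theorem g_pos (x ρ : ℝ) (h : 0 ≤ ρ) : g x ρ = (ρ : ℂ) * cexp (-(x * ρ)) := by
  simp [g, max_eq_left h]

theorem int_ramp (z : ℂ) (hz : 0 < z.re) :
    IntegrableOn (fun v : ℝ => (v : ℂ) * cexp (-(z * v))) (Set.Ioi 0) ∧
      ∫ v in Set.Ioi (0 : ℝ), (v : ℂ) * cexp (-(z * v)) = 1 / z ^ 2 := by
  have hz0 : z ≠ 0 := by
    intro h; simp [h] at hz
  have hint : IntegrableOn (fun v : ℝ => (v : ℂ) * cexp (-(z * v))) (Set.Ioi 0) := by
    have h1 : IntegrableOn (fun v : ℝ => v ^ (1 : ℝ) * Real.exp (-z.re * v)) (Set.Ioi 0) :=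
      integrableOn_rpow_mul_exp_neg_mul_rpow (p := 1) (s := 1) (b := z.re) (by norm_num) (by norm_num) hz |>.congr_fun
        (fun v hv => by simp) measurableSet_Ioi
    refine Integrable.mono' h1 (by fun_prop) ?_
    refine (ae_restrict_mem measurableSet_Ioi).mono fun v hv => ?_
    have hv0 : (0 : ℝ) < v := hv
    rw [norm_mul, Complex.norm_exp, Complex.norm_real, Real.norm_eq_abs, abs_of_pos hv0]
    simp
  refine ⟨hint, ?_⟩
  have hderiv : ∀ v ∈ Set.Ici (0 : ℝ), HasDerivAt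
      (fun v : ℝ => -((v : ℂ) / z + 1 / z ^ 2) * cexp (-(z * v))) ((v : ℂ) * cexp (-(z * v))) v := by
    intro v _
    have h1 : HasDerivAt (fun v : ℝ => ((v : ℝ) : ℂ)) 1 v := Complex.ofRealCLM.hasDerivAt
    have h2 : HasDerivAt (fun v : ℝ => cexp (-(z * v))) (cexp (-(z * v)) * (-(z * 1))) v :=
      ((h1.const_mul z).neg).cexp
    have h3 : HasDerivAt (fun v : ℝ => -((v : ℂ) / z + 1 / z ^ 2)) (-(1 / z)) v :=
      ((h1.div_const z).add_const (1 / z ^ 2)).neg
    have h4 := h3.mul h2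
    refine h4.congr_deriv ?_
    field_simp
    ring
  have hlim : Tendsto (fun v : ℝ => -((v : ℂ) / z + 1 / z ^ 2) * cexp (-(z * v))) atTop (𝓝 0) := by
    rw [tendsto_zero_iff_norm_tendsto_zero]
    have hb : ∀ᶠ v : ℝ in atTop, ‖-((v : ℂ) / z + 1 / z ^ 2) * cexp (-(z * v))‖ ≤
        v ^ 1 * Real.exp (-z.re * v) * (1 / ‖z‖) + Real.exp (-z.re * v) * (1 / ‖z‖ ^ 2) := by
      filter_upwards [eventually_ge_atTop (0 : ℝ)] with v hv
      rw [norm_mul, norm_neg, Complex.norm_exp]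
      have e1 : (-(z * (v : ℂ))).re = -z.re * v := by simp
      rw [e1]
      have e2 : ‖(v : ℂ) / z + 1 / z ^ 2‖ ≤ v / ‖z‖ + 1 / ‖z‖ ^ 2 := by
        refine (norm_add_le _ _).trans ?_
        rw [norm_div, norm_div, norm_one, norm_pow, Complex.norm_real, Real.norm_eq_abs,
          abs_of_nonneg hv]
      calc ‖(v : ℂ) / z + 1 / z ^ 2‖ * Real.exp (-z.re * v)
          ≤ (v / ‖z‖ + 1 / ‖z‖ ^ 2) * Real.exp (-z.re * v) := by gcongr
        _ = _ := by ring
    refine squeeze_zero' (Eventually.of_forall fun v => norm_nonneg _) hb ?_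
    have t1 : Tendsto (fun v : ℝ => v ^ 1 * Real.exp (-z.re * v)) atTop (𝓝 0) := by
      have := tendsto_rpow_mul_exp_neg_mul_atTop_nhds_zero 1 z.re hz
      refine this.congr' ?_
      filter_upwards with v
      simp
    have t2 : Tendsto (fun v : ℝ => Real.exp (-z.re * v)) atTop (𝓝 0) := by
      have := tendsto_rpow_mul_exp_neg_mul_atTop_nhds_zero 0 z.re hz
      refine this.congr' ?_
      filter_upwards with v
      simp
    have := (t1.mul_const (1 / ‖z‖)).add (t2.mul_const (1 / ‖z‖ ^ 2))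
    simpa using this
  rw [integral_Ioi_of_hasDerivAt_of_tendsto' hderiv hint hlim]
  simp

open scoped FourierTransform Real

theorem g_int (x : ℝ) (hx : 0 < x) : Integrable (g x) := by
  have h1 := (int_ramp (x : ℂ) (by simpa using hx)).1
  have h2 : Integrable ((Set.Ioi (0 : ℝ)).indicator
      (fun v : ℝ => (v : ℂ) * cexp (-((x : ℂ) * v)))) := h1.integrable_indicator measurableSet_Ioi
  refine h2.congr (Eventually.of_forall fun ρ => ?_)
  by_cases h : 0 < ρ
  · rw [Set.indicator_of_mem (show ρ ∈ Set.Ioi (0 : ℝ) from h), g_pos x ρ h.le]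
  · rw [Set.indicator_of_notMem (show ρ ∉ Set.Ioi (0 : ℝ) from h), g_neg x ρ (not_lt.1 h)]

theorem g_fourier (x : ℝ) (hx : 0 < x) (ξ : ℝ) :
    𝓕 (g x) ξ = 1 / ((x : ℂ) + ((2 * π * ξ : ℝ) : ℂ) * I) ^ 2 := by
  rw [Real.fourier_real_eq_integral_exp_smul]
  have hz : 0 < ((x : ℂ) + ((2 * π * ξ : ℝ) : ℂ) * I).re := by simpa using hx
  rw [← (int_ramp _ hz).2, ← integral_indicator measurableSet_Ioi]
  congr 1
  ext ρ
  by_cases h : 0 < ρ
  · rw [Set.indicator_of_mem (show ρ ∈ Set.Ioi (0 : ℝ) from h), g_pos x ρ h.le, smul_eq_mul,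
      mul_left_comm, ← Complex.exp_add]
    congr 2
    push_cast
    ring
  · rw [Set.indicator_of_notMem (show ρ ∉ Set.Ioi (0 : ℝ) from h), g_neg x ρ (not_lt.1 h), smul_zero]

theorem norm_line (x y : ℝ) : ‖(x : ℂ) + (y : ℂ) * I‖ ^ 2 = x ^ 2 + y ^ 2 := by
  rw [← Complex.normSq_eq_norm_sq, Complex.normSq_apply]
  simp
  ring

theorem line_ne (x y : ℝ) (hx : 0 < x) : (x : ℂ) + (y : ℂ) * I ≠ 0 := by
  intro h
  have := norm_line x y
  rw [h] at this
  simp at this
  nlinarith [sq_nonneg y]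

theorem line_int (x : ℝ) (hx : 0 < x) : Integrable (fun y : ℝ => 1 / ((x : ℂ) + (y : ℂ) * I) ^ 2) := by
  have h1 : Integrable (fun y : ℝ => (1 / x ^ 2) * (1 + (y / x) ^ 2)⁻¹) :=
    (integrable_inv_one_add_sq.comp_div hx.ne').const_mul _
  refine h1.mono' ?_ (Eventually.of_forall fun y => ?_)
  · refine Continuous.aestronglyMeasurable ?_
    refine Continuous.div (by fun_prop) (by fun_prop) fun y => pow_ne_zero 2 (line_ne x y hx)
  · rw [norm_div, norm_one, norm_pow, norm_line]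
    have : (1 / x ^ 2) * (1 + (y / x) ^ 2)⁻¹ = 1 / (x ^ 2 + y ^ 2) := by
      field_simp
    rw [this]

theorem ramp (x : ℝ) (hx : 0 < x) (ρ : ℝ) :
    ((max ρ 0 : ℝ) : ℂ) = (1 / (2 * π)) * ∫ y : ℝ,
      cexp (((x : ℂ) + (y : ℂ) * I) * ρ) / ((x : ℂ) + (y : ℂ) * I) ^ 2 := by
  have hF : 𝓕 (g x) = fun ξ : ℝ => 1 / ((x : ℂ) + ((2 * π * ξ : ℝ) : ℂ) * I) ^ 2 := by
    ext ξ; exact g_fourier x hx ξ
  have hFi : Integrable (𝓕 (g x)) := by
    rw [hF]
    exact (line_int x hx).comp_mul_left' (R := 2 * π) (by positivity)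
  have hinv := congrFun (Continuous.fourierInv_fourier_eq (g_cont x) (g_int x hx) hFi) ρ
  rw [Real.fourierInv_eq', hF] at hinv
  have h2 : ∫ v : ℝ, cexp (((2 * π * inner ℝ v ρ : ℝ) : ℂ) * I) • (1 / ((x : ℂ) + ((2 * π * v : ℝ) : ℂ) * I) ^ 2) =
      ((1 / (2 * π) : ℝ) : ℂ) * ∫ y : ℝ, cexp ((y : ℂ) * I * ρ) * (1 / ((x : ℂ) + (y : ℂ) * I) ^ 2) := by
    have := Measure.integral_comp_mul_left
      (fun y : ℝ => cexp ((y : ℂ) * I * ρ) * (1 / ((x : ℂ) + (y : ℂ) * I) ^ 2)) (2 * π)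
    rw [abs_of_pos (by positivity)] at this
    rw [Complex.real_smul] at this
    rw [one_div, ← this]
    congr 1
    ext v
    rw [smul_eq_mul]
    congr 2
    simp
    ring
  rw [h2] at hinv
  have h3 : ((max ρ 0 : ℝ) : ℂ) = cexp (x * ρ) * g x ρ := by
    unfold g
    push_cast
    rw [mul_left_comm, ← Complex.exp_add]
    simp
  rw [h3, ← hinv]
  rw [mul_left_comm, ← integral_const_mul]
  push_cast
  congr 2
  ext y
  rw [add_mul, Complex.exp_add]
  ring

theorem step_int (r c : ℝ) (hc : 0 < c) :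
    ∫ τ in (0 : ℝ)..c, (if r - τ ≤ 0 then (1 : ℝ) else 0) = max (c - r) 0 - max (-r) 0 := by
  have hmono : Monotone (fun τ : ℝ => if r - τ ≤ 0 then (1 : ℝ) else 0) := by
    intro a b hab
    dsimp only
    split_ifs with h1 h2
    · exact le_rfl
    · linarith
    · exact zero_le_one
    · exact le_rfl
  have := intervalIntegral.integral_eq_sub_of_hasDeriv_right_of_le (a := 0) (b := c)
    (f := fun τ : ℝ => max (τ - r) 0) (f' := fun τ : ℝ => if r - τ ≤ 0 then (1 : ℝ) else 0)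
    hc.le (by fun_prop) ?_ hmono.intervalIntegrable
  · rw [this]
    simp
  · intro τ _
    by_cases h : r - τ ≤ 0
    · rw [if_pos h]
      have h1 : HasDerivWithinAt (fun τ : ℝ => τ - r) 1 (Set.Ioi τ) τ :=
        ((hasDerivAt_id τ).sub_const r).hasDerivWithinAt
      refine h1.congr (fun t ht => ?_) ?_
      · have : τ < t := ht
        exact max_eq_left (by linarith)
      · exact max_eq_left (by linarith)
    · rw [if_neg h]
      have h0 : HasDerivAt (fun _ : ℝ => (0 : ℝ)) 0 τ := hasDerivAt_const τ 0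
      refine (h0.congr_of_eventuallyEq ?_).hasDerivWithinAt
      have : τ < r := by linarith [not_le.1 h]
      filter_upwards [gt_mem_nhds this] with t ht
      exact max_eq_right (by linarith)

theorem Ps_one (c : ℝ) (hc : 0 < c) (z : ℂ) (hz : z ≠ 0) :
    (∫ t in (0 : ℝ)..1, cexp (c * z * t)) = (cexp (c * z) - 1) / (c * z) := by
  have hc' : (c : ℂ) ≠ 0 := by exact_mod_cast hc.ne'
  rw [integral_exp_mul_complex (mul_ne_zero hc' hz)]
  simp

theorem Ps_int (c : ℝ) (hc : 0 < c) (z : ℂ) (hz : z ≠ 0) :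
    ∫ τ in (0 : ℝ)..c, cexp (z * τ) = c * ∫ t in (0 : ℝ)..1, cexp (c * z * t) := by
  have hc' : (c : ℂ) ≠ 0 := by exact_mod_cast hc.ne'
  rw [integral_exp_mul_complex hz, Ps_one c hc z hz]
  rw [mul_comm z (c : ℂ)]
  field_simp
  simp

theorem ker_eq (k : ℕ) (c D x y : ℝ) : ker k c D x y = cexp ((D : ℂ) * ((x : ℂ) + (y : ℂ) * I)) *
    Ps k c ((x : ℂ) + (y : ℂ) * I) / ((x : ℂ) + (y : ℂ) * I) := rfl

theorem ker_succ (k : ℕ) (c D x y : ℝ) : ker (k + 1) c D x y =
    (∫ t in (0 : ℝ)..1, cexp (c * ((x : ℂ) + (y : ℂ) * I) * t)) * ker k c D x y := by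
  unfold ker Ps
  rw [pow_succ]
  ring

theorem ker_shift (k : ℕ) (c D D' x y : ℝ) : ker k c (D + D') x y =
    cexp (((x : ℂ) + (y : ℂ) * I) * D) * ker k c D' x y := by
  unfold ker
  rw [mul_div_assoc, mul_div_assoc, ← mul_assoc, ← Complex.exp_add]
  congr 2
  push_cast
  ring

theorem G_cont (c x : ℝ) (hc : 0 < c) (hx : 0 < x) :
    Continuous (fun y : ℝ => ∫ t in (0 : ℝ)..1, cexp (c * ((x : ℂ) + (y : ℂ) * I) * t)) := by
  have : (fun y : ℝ => ∫ t in (0 : ℝ)..1, cexp (c * ((x : ℂ) + (y : ℂ) * I) * t)) =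
      fun y : ℝ => (cexp (c * ((x : ℂ) + (y : ℂ) * I)) - 1) / (c * ((x : ℂ) + (y : ℂ) * I)) := by
    ext y
    exact Ps_one c hc _ (line_ne x y hx)
  rw [this]
  refine Continuous.div (by fun_prop) (by fun_prop) fun y => mul_ne_zero ?_ (line_ne x y hx)
  exact_mod_cast hc.ne'

theorem G_bound (c x y : ℝ) (hc : 0 < c) (hx : 0 < x) :
    ‖∫ t in (0 : ℝ)..1, cexp (c * ((x : ℂ) + (y : ℂ) * I) * t)‖ ≤ Real.exp (c * x) := by
  have := intervalIntegral.norm_integral_le_of_norm_le_const (a := 0) (b := 1)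
    (f := fun t : ℝ => cexp (c * ((x : ℂ) + (y : ℂ) * I) * t)) (C := Real.exp (c * x)) ?_
  · simpa using this
  · intro t ht
    rw [Set.uIoc_of_le zero_le_one] at ht
    rw [Complex.norm_exp]
    apply Real.exp_le_exp.2
    have : (c * ((x : ℂ) + (y : ℂ) * I) * t).re = c * x * t := by simp
    rw [this]
    have h0 : 0 ≤ c * x := by positivity
    nlinarith [ht.1, ht.2]

theorem ker_cont' (k : ℕ) (c D x : ℝ) (hc : 0 < c) (hx : 0 < x) : Continuous (ker k c D x) := by
  induction k with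
  | zero =>
    have : ker 0 c D x = fun y : ℝ => cexp ((D : ℂ) * ((x : ℂ) + (y : ℂ) * I)) /
        ((x : ℂ) + (y : ℂ) * I) := by
      ext y
      simp [ker, Ps]
    rw [this]
    exact Continuous.div (by fun_prop) (by fun_prop) fun y => line_ne x y hx
  | succ k ih =>
    have : ker (k + 1) c D x = fun y : ℝ =>
        (∫ t in (0 : ℝ)..1, cexp (c * ((x : ℂ) + (y : ℂ) * I) * t)) * ker k c D x y := by
      ext y
      exact ker_succ k c D x y
    rw [this]
    exact (G_cont c x hc hx).mul ih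

theorem ker_one (c D x y : ℝ) (hc : 0 < c) (hx : 0 < x) : ker 1 c D x y =
    (1 / c) * (cexp (((x : ℂ) + (y : ℂ) * I) * ((c + D : ℝ) : ℂ)) / ((x : ℂ) + (y : ℂ) * I) ^ 2) -
    (1 / c) * (cexp (((x : ℂ) + (y : ℂ) * I) * (D : ℂ)) / ((x : ℂ) + (y : ℂ) * I) ^ 2) := by
  have hz := line_ne x y hx
  have hc' : (c : ℂ) ≠ 0 := by exact_mod_cast hc.ne'
  unfold ker Ps
  rw [pow_one, Ps_one c hc _ hz]
  generalize (x : ℂ) + (y : ℂ) * I = z at hz ⊢
  have e : cexp (z * ((c + D : ℝ) : ℂ)) = cexp (c * z) * cexp (D * z) := by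
    rw [← Complex.exp_add]
    congr 1
    push_cast
    ring
  rw [e, mul_comm z (D : ℂ)]
  field_simp

theorem line_exp_int (x : ℝ) (hx : 0 < x) (ρ : ℝ) : Integrable (fun y : ℝ =>
    cexp (((x : ℂ) + (y : ℂ) * I) * ρ) / ((x : ℂ) + (y : ℂ) * I) ^ 2) := by
  have h := ((line_int x hx).norm).const_mul (Real.exp (x * ρ))
  refine h.mono' ?_ (Eventually.of_forall fun y => ?_)
  · refine Continuous.aestronglyMeasurable ?_
    exact Continuous.div (by fun_prop) (by fun_prop) fun y => pow_ne_zero 2 (line_ne x y hx)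
  · rw [norm_div, Complex.norm_exp, norm_div, norm_one]
    have : (((x : ℂ) + (y : ℂ) * I) * (ρ : ℂ)).re = x * ρ := by simp
    rw [this]
    apply le_of_eq
    ring

theorem ker_int' (k : ℕ) (c D x : ℝ) (hc : 0 < c) (hx : 0 < x) : Integrable (ker (k + 1) c D x) := by
  induction k with
  | zero =>
    have : ker (0 + 1) c D x = fun y : ℝ =>
        (1 / c) * (cexp (((x : ℂ) + (y : ℂ) * I) * ((c + D : ℝ) : ℂ)) / ((x : ℂ) + (y : ℂ) * I) ^ 2) -
        (1 / c) * (cexp (((x : ℂ) + (y : ℂ) * I) * (D : ℂ)) / ((x : ℂ) + (y : ℂ) * I) ^ 2) := by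
      ext y
      exact ker_one c D x y hc hx
    rw [this]
    exact ((line_exp_int x hx _).const_mul _).sub ((line_exp_int x hx _).const_mul _)
  | succ k ih =>
    have : ker (k + 1 + 1) c D x = fun y : ℝ =>
        (∫ t in (0 : ℝ)..1, cexp (c * ((x : ℂ) + (y : ℂ) * I) * t)) * ker (k + 1) c D x y := by
      ext y
      exact ker_succ (k + 1) c D x y
    rw [this]
    refine ih.bdd_mul (c := Real.exp (c * x)) (G_cont c x hc hx).aestronglyMeasurable
      (Eventually.of_forall fun y => G_bound c x y hc hx)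

end K3

open K3 in
theorem cu_mellin (k : ℕ) (hk : 1 ≤ k) (c : ℝ) (hc : 0 < c) (x : ℝ) (hx : 0 < x) (r : ℝ) :
    (cu k c r : ℂ) = (1 / (2 * Real.pi)) * ∫ y : ℝ, ker k c (-r) x y := by
  obtain ⟨k, rfl⟩ : ∃ k', k = k' + 1 := ⟨k - 1, by omega⟩
  clear hk
  have hc' : (c : ℂ) ≠ 0 := by exact_mod_cast hc.ne'
  induction k generalizing r with
  | zero =>
    have h1 : cu (0 + 1) c r = (1 / c) * (max (c - r) 0 - max (-r) 0) := by
      show (1 / c) * ∫ τ in (0 : ℝ)..c, cu 0 c (r - τ) = _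
      rw [← step_int r c hc]
      rfl
    have e1 := ramp x hx (c - r)
    have e2 := ramp x hx (-r)
    rw [h1, Complex.ofReal_mul, Complex.ofReal_sub, e1, e2, ← mul_sub, ← integral_sub
      (line_exp_int x hx _) (line_exp_int x hx _), mul_left_comm, ← integral_const_mul]
    congr 2
    ext y
    rw [ker_one c (-r) x y hc hx, sub_eq_add_neg c r]
    push_cast
    ring
  | succ k ih =>
    have h1 : cu (k + 1 + 1) c r = (1 / c) * ∫ τ in (0 : ℝ)..c, cu (k + 1) c (r - τ) := rfl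
    rw [h1, Complex.ofReal_mul, ← intervalIntegral.integral_ofReal]
    have h2 : ∫ τ in (0 : ℝ)..c, ((cu (k + 1) c (r - τ) : ℝ) : ℂ) =
        (1 / (2 * Real.pi)) * ∫ τ in (0 : ℝ)..c, ∫ y : ℝ,
          cexp (((x : ℂ) + (y : ℂ) * I) * τ) * ker (k + 1) c (-r) x y := by
      rw [← intervalIntegral.integral_const_mul]
      refine intervalIntegral.integral_congr fun τ _ => ?_
      show ((cu (k + 1) c (r - τ) : ℝ) : ℂ) = (1 / (2 * Real.pi)) * ∫ y : ℝ,
          cexp (((x : ℂ) + (y : ℂ) * I) * τ) * ker (k + 1) c (-r) x y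
      rw [ih (r - τ)]
      congr 2
      ext y
      rw [← ker_shift]
      congr 1
      ring
    have hI : Integrable (Function.uncurry fun (τ y : ℝ) =>
        cexp (((x : ℂ) + (y : ℂ) * I) * τ) * ker (k + 1) c (-r) x y)
        ((volume.restrict (Set.Ioc 0 c)).prod volume) := by
      have hb : Integrable (fun p : ℝ × ℝ => (1 : ℂ) * ker (k + 1) c (-r) x p.2)
          ((volume.restrict (Set.Ioc 0 c)).prod volume) :=
        Integrable.mul_prod (f := fun _ : ℝ => (1 : ℂ)) (g := ker (k + 1) c (-r) x)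
          (integrable_const _) (ker_int' k c (-r) x hc hx)
      simp only [one_mul] at hb
      refine hb.bdd_mul (c := Real.exp (x * c)) (f := fun p : ℝ × ℝ =>
        cexp (((x : ℂ) + (p.2 : ℂ) * I) * p.1)) ?_ ?_
      · exact Continuous.aestronglyMeasurable (by fun_prop)
      · have hm : ((volume : Measure ℝ).restrict (Set.Ioc 0 c)).prod (volume : Measure ℝ) =
            ((volume : Measure ℝ).prod (volume : Measure ℝ)).restrict (Set.Ioc 0 c ×ˢ Set.univ) := by
          rw [← Measure.prod_restrict, Measure.restrict_univ]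
        rw [hm]
        refine (ae_restrict_mem (measurableSet_Ioc.prod MeasurableSet.univ)).mono fun p hp => ?_
        have hp1 := (Set.mem_prod.1 hp).1
        rw [Complex.norm_exp]
        apply Real.exp_le_exp.2
        have : (((x : ℂ) + (p.2 : ℂ) * I) * (p.1 : ℂ)).re = x * p.1 := by simp
        rw [this]
        exact mul_le_mul_of_nonneg_left hp1.2 hx.le
    rw [h2, intervalIntegral.integral_of_le hc.le, integral_integral_swap hI, mul_left_comm,
      ← integral_const_mul]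
    congr 2
    ext y
    rw [integral_mul_const, ← intervalIntegral.integral_of_le hc.le, Ps_int c hc _ (line_ne x y hx),
      ker_succ (k + 1)]
    push_cast
    field_simp

end Pool.Agent.H448R2.GC
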