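import Pool.Agent.H27.G.R_seed8.H448R2.GC.Defs
import Pool.Agent.H27.G.R_seed8.H382R2.Rect

/-! Task S0: shift lemmas -/

open Complex MeasureTheory Filter Topology

namespace Pool.Agent.H448R2.GC

namespace S0

theorem re_line (x y : ℝ) : ((x : ℂ) + (y : ℂ) * I).re = x := by simp
theorem im_line (x y : ℝ) : ((x : ℂ) + (y : ℂ) * I).im = y := by simp

/-- The limit of the residue theorem on rectangles. -/
theorem core (F : ℂ → ℂ) (x₀ x₁ : ℝ) (hx : x₀ ≤ x₁) (R : ℂ) (C Y₀ : ℝ)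
    (hb : ∀ z : ℂ, x₀ ≤ z.re → z.re ≤ x₁ → Y₀ ≤ |z.im| → ‖F z‖ ≤ C / z.im ^ 2)
    (h0 : Integrable (fun y : ℝ => F ((x₀ : ℂ) + (y : ℂ) * I)))
    (h1 : Integrable (fun y : ℝ => F ((x₁ : ℂ) + (y : ℂ) * I)))
    (hR : ∀ Y : ℝ, Y₀ ≤ Y → 0 < Y → SG.rectI F x₀ x₁ (-Y) Y = 2 * Real.pi * I * R) :
    (∫ y : ℝ, F ((x₁ : ℂ) + (y : ℂ) * I)) - (∫ y : ℝ, F ((x₀ : ℂ) + (y : ℂ) * I)) =
      2 * Real.pi * R := by
  have t1 : Tendsto (fun Y : ℝ => ∫ y in (-Y)..Y, F ((x₁ : ℂ) + (y : ℂ) * I)) atTop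
      (𝓝 (∫ y : ℝ, F ((x₁ : ℂ) + (y : ℂ) * I))) :=
    intervalIntegral_tendsto_integral h1 tendsto_neg_atTop_atBot tendsto_id
  have t0 : Tendsto (fun Y : ℝ => ∫ y in (-Y)..Y, F ((x₀ : ℂ) + (y : ℂ) * I)) atTop
      (𝓝 (∫ y : ℝ, F ((x₀ : ℂ) + (y : ℂ) * I))) :=
    intervalIntegral_tendsto_integral h0 tendsto_neg_atTop_atBot tendsto_id
  have hhor : ∀ s : ℝ, (s = 1 ∨ s = -1) →
      Tendsto (fun Y : ℝ => ∫ x in x₀..x₁, F (⟨x, s * Y⟩ : ℂ)) atTop (𝓝 0) := by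
    intro s hs
    have hlim : Tendsto (fun Y : ℝ => C / Y ^ 2 * |x₁ - x₀|) atTop (𝓝 0) := by
      have h2 : Tendsto (fun Y : ℝ => Y ^ 2) atTop atTop := tendsto_pow_atTop (by norm_num)
      have h3 := (tendsto_const_nhds (x := C)).div_atTop h2
      simpa using h3.mul_const |x₁ - x₀|
    rw [tendsto_zero_iff_norm_tendsto_zero]
    refine squeeze_zero' (Eventually.of_forall fun _ => norm_nonneg _) ?_ hlim
    filter_upwards [eventually_ge_atTop (max Y₀ 1)] with Y hY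
    have hY1 : 1 ≤ Y := (le_max_right _ _).trans hY
    have hY0 : Y₀ ≤ Y := (le_max_left _ _).trans hY
    apply intervalIntegral.norm_integral_le_of_norm_le_const
    intro x hxx
    rw [Set.uIoc_of_le hx] at hxx
    have habs : |s * Y| = Y := by
      rcases hs with rfl | rfl
      · rw [one_mul, abs_of_pos (by linarith)]
      · rw [neg_one_mul, abs_neg, abs_of_pos (by linarith)]
    have := hb ⟨x, s * Y⟩ hxx.1.le hxx.2 (by simp only; rw [habs]; exact hY0)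
    refine this.trans (le_of_eq ?_)
    simp only
    rw [← sq_abs, habs]
  have tt : Tendsto (fun Y : ℝ => (∫ x in x₀..x₁, F (⟨x, -1 * Y⟩ : ℂ)) -
      (∫ x in x₀..x₁, F (⟨x, 1 * Y⟩ : ℂ)) + I * (∫ y in (-Y)..Y, F ((x₁ : ℂ) + (y : ℂ) * I)) -
      I * ∫ y in (-Y)..Y, F ((x₀ : ℂ) + (y : ℂ) * I)) atTop
      (𝓝 (0 - 0 + I * (∫ y : ℝ, F ((x₁ : ℂ) + (y : ℂ) * I)) -
        I * ∫ y : ℝ, F ((x₀ : ℂ) + (y : ℂ) * I))) :=
    (((hhor (-1) (Or.inr rfl)).sub (hhor 1 (Or.inl rfl))).add (t1.const_mul I)).sub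
      (t0.const_mul I)
  have tc : Tendsto (fun Y : ℝ => (∫ x in x₀..x₁, F (⟨x, -1 * Y⟩ : ℂ)) -
      (∫ x in x₀..x₁, F (⟨x, 1 * Y⟩ : ℂ)) + I * (∫ y in (-Y)..Y, F ((x₁ : ℂ) + (y : ℂ) * I)) -
      I * ∫ y in (-Y)..Y, F ((x₀ : ℂ) + (y : ℂ) * I)) atTop
      (𝓝 (2 * Real.pi * I * R)) := by
    refine tendsto_const_nhds.congr' ?_
    filter_upwards [eventually_ge_atTop (max Y₀ 1)] with Y hY
    have hY1 : 1 ≤ Y := (le_max_right _ _).trans hY
    have hY0 : Y₀ ≤ Y := (le_max_left _ _).trans hY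
    rw [← hR Y hY0 (by linarith)]
    unfold SG.rectI
    simp only [Complex.mk_eq_add_mul_I, neg_one_mul, one_mul]
  have := tendsto_nhds_unique tt tc
  have h3 : I * ((∫ y : ℝ, F ((x₁ : ℂ) + (y : ℂ) * I)) -
      (∫ y : ℝ, F ((x₀ : ℂ) + (y : ℂ) * I))) = I * (2 * Real.pi * R) := by
    linear_combination this
  exact mul_left_cancel₀ I_ne_zero h3

theorem integrable_inv (a b : ℝ) (ha : a ≠ 0) : Integrable (fun y : ℝ => 1 / (a ^ 2 + (y - b) ^ 2)) := by
  have h1 : Integrable (fun y : ℝ => (1 + (y - b) ^ 2)⁻¹) :=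
    integrable_inv_one_add_sq.comp_sub_right b
  have ha2 : 0 < a ^ 2 := by positivity
  refine Integrable.mono' (h1.const_mul (1 + 1 / a ^ 2)) ?_ (Eventually.of_forall fun y => ?_)
  · apply Continuous.aestronglyMeasurable
    apply Continuous.div continuous_const (by fun_prop)
    intro y
    positivity
  · rw [Real.norm_eq_abs, abs_of_nonneg (by positivity), div_le_iff₀ (by positivity)]
    have h2 : (1 + 1 / a ^ 2) * (1 + (y - b) ^ 2)⁻¹ * (a ^ 2 + (y - b) ^ 2) =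
        ((1 + a ^ 2) * (a ^ 2 + (y - b) ^ 2)) / (a ^ 2 * (1 + (y - b) ^ 2)) := by
      field_simp
      ring
    rw [h2, le_div_iff₀ (by positivity)]
    nlinarith [sq_nonneg (y - b), mul_nonneg ha2.le (sq_nonneg (y - b))]

theorem norm_sub_sq (x y : ℝ) (p : ℂ) :
    ‖((x : ℂ) + (y : ℂ) * I) - p‖ ^ 2 = (x - p.re) ^ 2 + (y - p.im) ^ 2 := by
  rw [← Complex.normSq_eq_norm_sq, Complex.normSq_apply]
  simp
  ring

theorem ne_of_re {x y : ℝ} {p : ℂ} (h : x ≠ p.re) : ((x : ℂ) + (y : ℂ) * I) - p ≠ 0 := by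
  intro h0
  apply h
  have := congrArg Complex.re h0
  simp at this
  linarith

theorem integrable_line (G : ℂ → ℂ) (p q : ℂ) (x C : ℝ) (hG : Differentiable ℂ G)
    (hp : x ≠ p.re) (hq : x ≠ q.re) (hC : ∀ z : ℂ, z.re = x → ‖G z‖ ≤ C) :
    Integrable (fun y : ℝ => G ((x : ℂ) + (y : ℂ) * I) /
      ((((x : ℂ) + (y : ℂ) * I) - p) * (((x : ℂ) + (y : ℂ) * I) - q))) := by
  have hC0 : 0 ≤ C := (norm_nonneg _).trans (hC (x : ℂ) (by simp))
  have i1 := integrable_inv (x - p.re) p.im (sub_ne_zero.2 hp)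
  have i2 := integrable_inv (x - q.re) q.im (sub_ne_zero.2 hq)
  refine Integrable.mono' ((i1.add i2).const_mul (C / 2)) ?_ (Eventually.of_forall fun y => ?_)
  · apply Continuous.aestronglyMeasurable
    apply Continuous.div
    · exact hG.continuous.comp (by fun_prop)
    · fun_prop
    · intro y
      exact mul_ne_zero (ne_of_re hp) (ne_of_re hq)
  · rw [norm_div, norm_mul]
    have hP : 0 < ‖((x : ℂ) + (y : ℂ) * I) - p‖ := norm_pos_iff.2 (ne_of_re hp)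
    have hQ : 0 < ‖((x : ℂ) + (y : ℂ) * I) - q‖ := norm_pos_iff.2 (ne_of_re hq)
    simp only [Pi.add_apply]
    rw [← norm_sub_sq, ← norm_sub_sq]
    have h1 := hC ((x : ℂ) + (y : ℂ) * I) (re_line x y)
    set a := ‖((x : ℂ) + (y : ℂ) * I) - p‖
    set b := ‖((x : ℂ) + (y : ℂ) * I) - q‖
    calc ‖G ((x : ℂ) + (y : ℂ) * I)‖ / (a * b) ≤ C / (a * b) := by gcongr
      _ ≤ C / 2 * (1 / a ^ 2 + 1 / b ^ 2) := by
        have h2 : C / 2 * (1 / a ^ 2 + 1 / b ^ 2) - C / (a * b) =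
            C / 2 * (1 / a - 1 / b) ^ 2 := by
          field_simp
          ring
        have h3 : 0 ≤ C / 2 * (1 / a - 1 / b) ^ 2 := by positivity
        linarith

theorem bound_far (G : ℂ → ℂ) (p q : ℂ) (x₀ x₁ C : ℝ)
    (hC : ∀ z : ℂ, x₀ ≤ z.re → z.re ≤ x₁ → ‖G z‖ ≤ C) (z : ℂ) (h0 : x₀ ≤ z.re) (h1 : z.re ≤ x₁)
    (hz : 2 * (1 + |p.im| + |q.im|) ≤ |z.im|) :
    ‖G z / ((z - p) * (z - q))‖ ≤ (4 * C) / z.im ^ 2 := by
  have hC0 : 0 ≤ C := (norm_nonneg _).trans (hC z h0 h1)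
  have key : ∀ p : ℂ, 2 * (1 + |p.im|) ≤ |z.im| → |z.im| / 2 ≤ ‖z - p‖ := by
    intro p hp
    have h2 : |(z - p).im| ≤ ‖z - p‖ := Complex.abs_im_le_norm _
    rw [Complex.sub_im] at h2
    have h3 : |z.im| - |p.im| ≤ |z.im - p.im| := abs_sub_abs_le_abs_sub _ _
    linarith
  have hp := key p (by have := abs_nonneg q.im; linarith)
  have hq := key q (by have := abs_nonneg p.im; linarith)
  have hpos : 0 < |z.im| := by
    have := abs_nonneg q.im
    have := abs_nonneg p.im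
    linarith
  rw [norm_div, norm_mul]
  have h4 : (|z.im| / 2) * (|z.im| / 2) ≤ ‖z - p‖ * ‖z - q‖ :=
    mul_le_mul hp hq (by positivity) (norm_nonneg _)
  have h5 : 0 < (|z.im| / 2) * (|z.im| / 2) := by positivity
  calc ‖G z‖ / (‖z - p‖ * ‖z - q‖) ≤ C / ((|z.im| / 2) * (|z.im| / 2)) :=
        div_le_div₀ hC0 (hC z h0 h1) h5 h4
    _ = (4 * C) / z.im ^ 2 := by
        rw [← sq_abs z.im]
        field_simp
        ring

end S0

open S0

/-- no pole -/
theorem shift0 (F : ℂ → ℂ) (x₀ x₁ C : ℝ) (hx : x₀ ≤ x₁)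
    (hF : ∀ z : ℂ, x₀ ≤ z.re → z.re ≤ x₁ → DifferentiableAt ℂ F z)
    (hC : ∀ z : ℂ, x₀ ≤ z.re → z.re ≤ x₁ → ‖F z‖ ≤ C / (1 + ‖z‖ ^ 2)) :
    ∫ y : ℝ, F ((x₁ : ℂ) + (y : ℂ) * I) = ∫ y : ℝ, F ((x₀ : ℂ) + (y : ℂ) * I) := by
  have hC0 : 0 ≤ C := by
    have h1 := (norm_nonneg _).trans (hC (x₀ : ℂ) (by simp) (by simpa using hx))
    by_contra hneg
    push Not at hneg
    have : C / (1 + ‖(x₀ : ℂ)‖ ^ 2) < 0 := div_neg_of_neg_of_pos hneg (by positivity)
    linarith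
  have hb : ∀ z : ℂ, x₀ ≤ z.re → z.re ≤ x₁ → ‖F z‖ ≤ C / (1 + z.im ^ 2) := by
    intro z h0 h1
    refine (hC z h0 h1).trans ?_
    apply div_le_div_of_nonneg_left hC0 (by positivity)
    have : |z.im| ≤ ‖z‖ := Complex.abs_im_le_norm z
    rw [← sq_abs z.im]
    have := pow_le_pow_left₀ (abs_nonneg _) this 2
    linarith
  have hint : ∀ x : ℝ, x₀ ≤ x → x ≤ x₁ →
      Integrable (fun y : ℝ => F ((x : ℂ) + (y : ℂ) * I)) := by
    intro x h0 h1
    refine Integrable.mono' (integrable_inv_one_add_sq.const_mul C) ?_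
      (Eventually.of_forall fun y => ?_)
    · apply Continuous.aestronglyMeasurable
      rw [continuous_iff_continuousAt]
      intro y
      have h2 : ContinuousAt F ((x : ℂ) + (y : ℂ) * I) :=
        (hF _ (by rw [re_line]; exact h0) (by rw [re_line]; exact h1)).continuousAt
      have h3 : ContinuousAt (fun y : ℝ => (x : ℂ) + (y : ℂ) * I) y := by fun_prop
      exact ContinuousAt.comp (g := F) (f := fun y : ℝ => (x : ℂ) + (y : ℂ) * I) h2 h3
    · have := hb ((x : ℂ) + (y : ℂ) * I) (by rw [re_line]; exact h0) (by rw [re_line]; exact h1)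
      rw [im_line] at this
      rwa [← div_eq_mul_inv]
  have hkey := core F x₀ x₁ hx 0 C 1 ?_ (hint x₀ le_rfl hx) (hint x₁ hx le_rfl) ?_
  · rw [mul_zero] at hkey
    exact sub_eq_zero.1 hkey
  · intro z h0 h1 h2
    refine (hb z h0 h1).trans ?_
    have h3 : 0 < z.im ^ 2 := by
      rw [← sq_abs]
      positivity
    exact div_le_div_of_nonneg_left hC0 h3 (by linarith)
  · intro Y _ hY
    rw [mul_zero]
    apply H370.RI_zero hx (by linarith)
    intro z hz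
    exact (hF z hz.1.1 hz.1.2).differentiableWithinAt

/-- two poles -/
theorem shift2 (G : ℂ → ℂ) (p q : ℂ) (x₀ x₁ C : ℝ) (hG : Differentiable ℂ G) (hpq : p ≠ q)
    (hp0 : x₀ < p.re) (hp1 : p.re < x₁) (hq0 : x₀ < q.re) (hq1 : q.re < x₁)
    (hC : ∀ z : ℂ, x₀ ≤ z.re → z.re ≤ x₁ → ‖G z‖ ≤ C) :
    (∫ y : ℝ, G ((x₁ : ℂ) + (y : ℂ) * I) /
      ((((x₁ : ℂ) + (y : ℂ) * I) - p) * (((x₁ : ℂ) + (y : ℂ) * I) - q))) -
    (∫ y : ℝ, G ((x₀ : ℂ) + (y : ℂ) * I) /
      ((((x₀ : ℂ) + (y : ℂ) * I) - p) * (((x₀ : ℂ) + (y : ℂ) * I) - q))) =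
    2 * Real.pi * (G p / (p - q) + G q / (q - p)) := by
  have hx : x₀ < x₁ := hp0.trans hp1
  refine core (fun z => G z / ((z - p) * (z - q))) x₀ x₁ hx.le _ (4 * C)
    (2 * (1 + |p.im| + |q.im|)) ?_ ?_ ?_ ?_
  · intro z h0 h1 h2
    exact bound_far G p q x₀ x₁ C hC z h0 h1 h2
  · exact integrable_line G p q x₀ C hG hp0.ne hq0.ne
      (fun z hz => hC z hz.ge (hz.le.trans hx.le))
  · exact integrable_line G p q x₁ C hG hp1.ne' hq1.ne'
      (fun z hz => hC z (hx.le.trans hz.ge) hz.le)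
  · intro Y hY _
    have hpi : |p.im| < Y := by
      have := abs_nonneg q.im
      have := abs_nonneg p.im
      linarith
    have hqi : |q.im| < Y := by
      have := abs_nonneg q.im
      have := abs_nonneg p.im
      linarith
    have hdf : ∀ s, HasDerivAt (fun z : ℂ => (z - p) * (z - q)) ((s - q) + (s - p)) s := by
      intro s
      have h1 : HasDerivAt (fun z : ℂ => z - p) 1 s := (hasDerivAt_id s).sub_const p
      have h2 : HasDerivAt (fun z : ℂ => z - q) 1 s := (hasDerivAt_id s).sub_const q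
      have h3 : HasDerivAt (fun z : ℂ => (z - p) * (z - q)) (1 * (s - q) + (s - p) * 1) s :=
        h1.mul h2
      rwa [one_mul, mul_one] at h3
    have hres := SG.rect_res (fun z => (z - p) * (z - q)) G x₀ x₁ (-Y) Y hx (by
        have := abs_nonneg p.im
        linarith) {p, q} ?_ ?_ ?_ ?_ ?_
    · rw [Finset.sum_pair hpq, (hdf p).deriv, (hdf q).deriv] at hres
      simpa using hres
    · intro z hz
      rw [Finset.mem_insert, Finset.mem_singleton] at hz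
      rcases hz with rfl | rfl
      · exact ⟨⟨hp0, hp1⟩, (abs_lt.1 hpi)⟩
      · exact ⟨⟨hq0, hq1⟩, (abs_lt.1 hqi)⟩
    · intro s _
      exact (by fun_prop : Differentiable ℂ fun z : ℂ => (z - p) * (z - q)).analyticAt s
    · intro s _
      exact hG.analyticAt s
    · intro s _
      rw [mul_eq_zero, sub_eq_zero, sub_eq_zero, Finset.mem_insert, Finset.mem_singleton]
    · intro z hz
      rw [Finset.mem_insert, Finset.mem_singleton] at hz
      rw [(hdf z).deriv]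
      rcases hz with rfl | rfl
      · rw [sub_self, add_zero]
        exact sub_ne_zero.2 hpq
      · rw [sub_self, zero_add]
        exact sub_ne_zero.2 (Ne.symm hpq)

/-- one pole `q` between the lines, the other one `p` to the left -/
theorem shift1 (G : ℂ → ℂ) (p q : ℂ) (x₀ x₁ C : ℝ) (hG : Differentiable ℂ G)
    (hp0 : p.re < x₀) (hq0 : x₀ < q.re) (hq1 : q.re < x₁)
    (hC : ∀ z : ℂ, x₀ ≤ z.re → z.re ≤ x₁ → ‖G z‖ ≤ C) :
    (∫ y : ℝ, G ((x₁ : ℂ) + (y : ℂ) * I) /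
      ((((x₁ : ℂ) + (y : ℂ) * I) - p) * (((x₁ : ℂ) + (y : ℂ) * I) - q))) -
    (∫ y : ℝ, G ((x₀ : ℂ) + (y : ℂ) * I) /
      ((((x₀ : ℂ) + (y : ℂ) * I) - p) * (((x₀ : ℂ) + (y : ℂ) * I) - q))) =
    2 * Real.pi * (G q / (q - p)) := by
  have hx : x₀ < x₁ := hq0.trans hq1
  refine core (fun z => G z / ((z - p) * (z - q))) x₀ x₁ hx.le _ (4 * C)
    (2 * (1 + |p.im| + |q.im|)) ?_ ?_ ?_ ?_
  · intro z h0 h1 h2
    exact bound_far G p q x₀ x₁ C hC z h0 h1 h2
  · exact integrable_line G p q x₀ C hG hp0.ne' hq0.ne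
      (fun z hz => hC z hz.ge (hz.le.trans hx.le))
  · exact integrable_line G p q x₁ C hG (hp0.trans hx).ne' hq1.ne'
      (fun z hz => hC z (hx.le.trans hz.ge) hz.le)
  · intro Y hY _
    have hqi : |q.im| < Y := by
      have := abs_nonneg q.im
      have := abs_nonneg p.im
      linarith
    have hres := SG.rect_res (fun z => z - q) (fun z => G z / (z - p)) x₀ x₁ (-Y) Y hx (by
        have := abs_nonneg q.im
        linarith) {q} ?_ ?_ ?_ ?_ ?_
    · have hd : deriv (fun z : ℂ => z - q) q = 1 := by simp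
      rw [Finset.sum_singleton, hd, div_one] at hres
      rw [← hres]
      congr 1
      funext s
      rw [div_div]
    · intro z hz
      rw [Finset.mem_singleton] at hz
      subst hz
      exact ⟨⟨hq0, hq1⟩, (abs_lt.1 hqi)⟩
    · intro s _
      exact (by fun_prop : Differentiable ℂ fun z : ℂ => z - q).analyticAt s
    · intro s hs
      apply (hG.analyticAt s).div
      · exact (by fun_prop : Differentiable ℂ fun z : ℂ => z - p).analyticAt s
      · intro h0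
        have h1 : s = p := sub_eq_zero.1 h0
        have h2 : x₀ ≤ s.re := hs.1.1
        rw [h1] at h2
        linarith
    · intro s _
      rw [sub_eq_zero, Finset.mem_singleton]
    · intro z _
      simp

end Pool.Agent.H448R2.GC
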