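import Pool.Agent.H27.G.R_seed8.H448R2.GC.Defs
import Pool.Agent.H27.G.R_seed8.H382R2.Zeta1
import Pool.Agent.H27.G.R_seed8.H448R2.GC.X1

/-! TEAM GC, Task X2: growth of zeta in vertical strips (helper432). -/

open Complex MeasureTheory Filter Topology

namespace Pool.Agent.H448R2.GC

namespace X2

theorem zeta_bd (s : ℂ) (hs0 : 0 < s.re) (hs1 : s ≠ 1) :
    ‖riemannZeta s‖ ≤ 1 + 1 / ‖s - 1‖ + ‖s‖ / s.re := by
  rw [ZU.J_a1.zf_one s hs0 hs1]
  have hint : ‖∫ u in Set.Ioi (1 : ℝ), ((Int.fract u : ℝ) : ℂ) * (u : ℂ) ^ (-s - 1)‖ ≤ 1 / s.re := by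
    have hI : IntegrableOn (fun u : ℝ => u ^ (-s.re - 1)) (Set.Ioi (1 : ℝ)) :=
      integrableOn_Ioi_rpow_of_lt (by linarith) one_pos
    have hval : ∫ u in Set.Ioi (1 : ℝ), u ^ (-s.re - 1) = 1 / s.re := by
      rw [integral_Ioi_rpow_of_lt (by linarith) one_pos]
      simp only [Real.one_rpow]
      have e : -s.re - 1 + 1 = -s.re := by ring
      rw [e, neg_div_neg_eq]
    calc ‖∫ u in Set.Ioi (1 : ℝ), ((Int.fract u : ℝ) : ℂ) * (u : ℂ) ^ (-s - 1)‖
        ≤ ∫ u in Set.Ioi (1 : ℝ), u ^ (-s.re - 1) := by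
          refine norm_integral_le_of_norm_le hI ?_
          refine (ae_restrict_iff' measurableSet_Ioi).2 (Filter.Eventually.of_forall ?_)
          intro u hu
          have hu0 : (0 : ℝ) < u := lt_trans one_pos hu
          rw [norm_mul, Complex.norm_cpow_eq_rpow_re_of_pos hu0, Complex.norm_real,
            Real.norm_eq_abs, Int.abs_fract]
          have h4 : Int.fract u ≤ 1 := (Int.fract_lt_one u).le
          have h5 : (-s - 1).re = -s.re - 1 := by simp
          rw [h5]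
          exact mul_le_of_le_one_left (Real.rpow_nonneg hu0.le _) h4
      _ = 1 / s.re := hval
  calc ‖1 + 1 / (s - 1) - s * ∫ u in Set.Ioi (1 : ℝ), ((Int.fract u : ℝ) : ℂ) * (u : ℂ) ^ (-s - 1)‖
      ≤ ‖(1 : ℂ)‖ + ‖1 / (s - 1)‖ +
        ‖s * ∫ u in Set.Ioi (1 : ℝ), ((Int.fract u : ℝ) : ℂ) * (u : ℂ) ^ (-s - 1)‖ :=
        (norm_sub_le _ _).trans (by gcongr; exact norm_add_le _ _)
    _ ≤ 1 + 1 / ‖s - 1‖ + ‖s‖ * (1 / s.re) := by
        rw [norm_one, norm_mul, norm_div, norm_one]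
        gcongr
    _ = 1 + 1 / ‖s - 1‖ + ‖s‖ / s.re := by ring

end X2

/-- the entire function `(w - 1) ζ(w)` -/
theorem zeta_one_entire : Differentiable ℂ (Function.update (fun w : ℂ => (w - 1) * riemannZeta w) 1 1) := by
  rw [← differentiableOn_univ,
    ← differentiableOn_compl_singleton_and_continuousAt_iff (c := 1) Filter.univ_mem]
  refine ⟨?_, ?_⟩
  · intro w hw
    have hw1 : w ≠ 1 := by
      simpa using hw
    have h : DifferentiableAt ℂ (fun w : ℂ => (w - 1) * riemannZeta w) w :=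
      (differentiableAt_id.sub_const 1).mul (differentiableAt_riemannZeta hw1)
    refine (h.congr_of_eventuallyEq ?_).differentiableWithinAt
    filter_upwards [isOpen_compl_singleton.mem_nhds (show w ∈ ({1} : Set ℂ)ᶜ by simpa using hw1)]
      with z hz
    rw [Function.update_of_ne (by simpa using hz)]
  · rw [continuousAt_update_same]
    exact riemannZeta_residue_one

namespace X2

/-- large imaginary part -/
theorem growth_far (X₁ : ℝ) : ∃ C B : ℝ, 0 < C ∧ 0 < B ∧ ∀ w : ℂ, -X₁ ≤ w.re → w.re ≤ 3 →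
    1 ≤ |w.im| → ‖riemannZeta w‖ ≤ C * (1 + |w.im|) ^ B := by
  obtain ⟨C₀, hC₀, hXX⟩ := Pool.Agent.H448R2.GC.XX_upper (1 + |X₁|)
  refine ⟨50 + C₀ * 50, 2 + |X₁|, by positivity, by positivity, ?_⟩
  intro w h1 h2 h3
  have hX := abs_nonneg X₁
  have hX' := le_abs_self X₁
  have hone : (1 : ℝ) ≤ 1 + |w.im| := by linarith [abs_nonneg w.im]
  -- basic bound in the right half
  have key : ∀ s : ℂ, 1 / 16 ≤ s.re → 1 ≤ |s.im| → ‖riemannZeta s‖ ≤ 50 * (1 + |s.im|) := by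
    intro s hs hi
    have hs0 : 0 < s.re := by linarith
    have hs1 : s ≠ 1 := by
      rintro rfl
      norm_num at hi
    have hb := zeta_bd s hs0 hs1
    have hsub : 1 / ‖s - 1‖ ≤ 1 := by
      have : 1 ≤ ‖s - 1‖ := by
        refine le_trans hi ?_
        have := Complex.abs_im_le_norm (s - 1)
        simpa using this
      rw [div_le_one (by linarith)]
      exact this
    have hn : ‖s‖ / s.re ≤ 1 + 16 * |s.im| := by
      have h4 := Complex.norm_le_abs_re_add_abs_im s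
      rw [abs_of_pos hs0] at h4
      rw [div_le_iff₀ hs0]
      have : |s.im| ≤ 16 * |s.im| * s.re := by nlinarith [abs_nonneg s.im]
      nlinarith
    linarith
  by_cases hw : 1 / 16 ≤ w.re
  · have hb := key w hw h3
    have hp : (1 + |w.im|) ^ (1 : ℝ) ≤ (1 + |w.im|) ^ (2 + |X₁|) :=
      Real.rpow_le_rpow_of_exponent_le hone (by linarith)
    rw [Real.rpow_one] at hp
    have hnn : 0 ≤ (1 + |w.im|) ^ (2 + |X₁|) := by positivity
    nlinarith [mul_nonneg hC₀.le hnn]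
  · push Not at hw
    set u : ℂ := 1 - w with hu
    have hure : u.re = 1 - w.re := by simp [hu]
    have huim : |u.im| = |w.im| := by simp [hu]
    have hu1 : u ≠ 1 := by
      intro h
      have : |u.im| = 0 := by rw [h]; simp
      rw [huim] at this
      linarith
    have hfe := Pool.Agent.H448R2.GC.zeta_fe u (by rw [hure]; linarith) hu1
    have e : 1 - u = w := by rw [hu]; ring
    rw [e] at hfe
    have hb := key u (by rw [hure]; linarith) (by rw [huim]; exact h3)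
    have hx := hXX u (by rw [hure]; linarith) (by rw [hure]; linarith)
    rw [huim] at hb hx
    rw [hfe, norm_mul]
    have hp : (1 + |w.im|) ^ (u.re - 1 / 2) * (1 + |w.im|) ≤ (1 + |w.im|) ^ (2 + |X₁|) := by
      rw [← Real.rpow_add_one (by linarith)]
      exact Real.rpow_le_rpow_of_exponent_le hone (by rw [hure]; linarith)
    have hnn : 0 ≤ (1 + |w.im|) ^ (2 + |X₁|) := by positivity
    calc ‖XX u‖ * ‖riemannZeta u‖ ≤ (C₀ * (1 + |w.im|) ^ (u.re - 1 / 2)) * (50 * (1 + |w.im|)) := by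
          gcongr
      _ = C₀ * 50 * ((1 + |w.im|) ^ (u.re - 1 / 2) * (1 + |w.im|)) := by ring
      _ ≤ C₀ * 50 * (1 + |w.im|) ^ (2 + |X₁|) := by gcongr
      _ ≤ (50 + C₀ * 50) * (1 + |w.im|) ^ (2 + |X₁|) := by nlinarith

end X2

/-- growth of `(w - 1) ζ(w)` in vertical strips -/
theorem zeta_one_growth (X₁ : ℝ) : ∃ (C : ℝ) (B : ℕ), 0 < C ∧ ∀ w : ℂ, -X₁ ≤ w.re → w.re ≤ 3 →
    ‖Function.update (fun w : ℂ => (w - 1) * riemannZeta w) 1 1 w‖ ≤ C * (1 + |w.im|) ^ B := by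
  obtain ⟨C₁, B₁, hC₁, hB₁, hfar⟩ := X2.growth_far X₁
  -- compact part
  have hcpt : IsCompact (Set.Icc (-X₁) 3 ×ℂ Set.Icc (-1 : ℝ) 1) :=
    isCompact_Icc.reProdIm isCompact_Icc
  obtain ⟨M, hM⟩ := hcpt.exists_bound_of_continuousOn
    (f := Function.update (fun w : ℂ => (w - 1) * riemannZeta w) 1 1)
    zeta_one_entire.continuous.continuousOn
  refine ⟨|M| + 1 + (|X₁| + 5) * C₁, ⌈B₁⌉₊ + 1, by positivity, ?_⟩
  intro w h1 h2
  have hX := abs_nonneg X₁
  have hX' := le_abs_self X₁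
  have hone : (1 : ℝ) ≤ 1 + |w.im| := by linarith [abs_nonneg w.im]
  have hpow : (1 : ℝ) ≤ (1 + |w.im|) ^ (⌈B₁⌉₊ + 1) := one_le_pow₀ hone
  by_cases hi : 1 ≤ |w.im|
  · have hw1 : w ≠ 1 := by
      rintro rfl
      norm_num at hi
    rw [Function.update_of_ne hw1, norm_mul]
    have hz := hfar w h1 h2 hi
    have hn : ‖w - 1‖ ≤ (|X₁| + 5) * (1 + |w.im|) := by
      have h4 := Complex.norm_le_abs_re_add_abs_im (w - 1)
      have h5 : |(w - 1).re| ≤ |X₁| + 4 := by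
        rw [Complex.sub_re, Complex.one_re, abs_le]
        constructor <;> linarith
      have h6 : |(w - 1).im| = |w.im| := by simp
      rw [h6] at h4
      nlinarith
    have hp : (1 + |w.im|) ^ B₁ ≤ (1 + |w.im|) ^ (⌈B₁⌉₊ : ℕ) := by
      rw [← Real.rpow_natCast]
      exact Real.rpow_le_rpow_of_exponent_le hone (Nat.le_ceil B₁)
    calc ‖w - 1‖ * ‖riemannZeta w‖
        ≤ ((|X₁| + 5) * (1 + |w.im|)) * (C₁ * (1 + |w.im|) ^ (⌈B₁⌉₊ : ℕ)) := by
          refine mul_le_mul hn (hz.trans ?_) (norm_nonneg _) (by positivity)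
          gcongr
      _ = (|X₁| + 5) * C₁ * (1 + |w.im|) ^ (⌈B₁⌉₊ + 1) := by ring
      _ ≤ _ := by
          have : 0 ≤ |M| + 1 := by positivity
          nlinarith [mul_nonneg this (by linarith : (0:ℝ) ≤ (1 + |w.im|) ^ (⌈B₁⌉₊ + 1))]
  · push Not at hi
    have hi' := abs_lt.1 hi
    have hmem : w ∈ (Set.Icc (-X₁) 3 ×ℂ Set.Icc (-1 : ℝ) 1) := by
      rw [Complex.mem_reProdIm]
      exact ⟨⟨h1, h2⟩, ⟨hi'.1.le, hi'.2.le⟩⟩
    have hb := hM w hmem
    have hM' := le_abs_self M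
    have hA : 0 ≤ (|X₁| + 5) * C₁ := by positivity
    nlinarith [abs_nonneg M]

/-- growth of zeta in vertical strips, away from the pole -/
theorem zeta_growth (X₁ : ℝ) : ∃ C B : ℝ, 0 < C ∧ 0 < B ∧ ∀ w : ℂ, -X₁ ≤ w.re → w.re ≤ 3 →
    1 / 16 ≤ ‖w - 1‖ → ‖riemannZeta w‖ ≤ C * (1 + |w.im|) ^ B := by
  obtain ⟨C, B, hC, h⟩ := zeta_one_growth X₁
  refine ⟨16 * C, (B : ℝ) + 1, by positivity, by positivity, ?_⟩
  intro w h1 h2 h3
  have hw1 : w ≠ 1 := by
    rintro rfl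
    norm_num at h3
  have hb := h w h1 h2
  rw [Function.update_of_ne hw1, norm_mul] at hb
  have hone : (1 : ℝ) ≤ 1 + |w.im| := by linarith [abs_nonneg w.im]
  have hp : (1 + |w.im|) ^ B ≤ (1 + |w.im|) ^ ((B : ℝ) + 1) := by
    rw [← Real.rpow_natCast]
    exact Real.rpow_le_rpow_of_exponent_le hone (by linarith)
  have h5 : 1 / 16 * ‖riemannZeta w‖ ≤ ‖w - 1‖ * ‖riemannZeta w‖ := by gcongr
  have h6 : C * (1 + |w.im|) ^ B ≤ C * (1 + |w.im|) ^ ((B : ℝ) + 1) := by gcongr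
  linarith

/-- growth of zeta in the critical strip, linear -/
theorem zeta_growth_mid : ∃ C : ℝ, 0 < C ∧ ∀ w : ℂ, 1 / 8 ≤ w.re → w.re ≤ 7 / 8 →
    ‖riemannZeta w‖ ≤ C * (1 + |w.im|) := by
  refine ⟨20, by norm_num, ?_⟩
  intro w h1 h2
  have hs0 : 0 < w.re := by linarith
  have hw1 : w ≠ 1 := by
    intro h
    rw [h] at h2
    norm_num at h2
  have hb := X2.zeta_bd w hs0 hw1
  have hsub : 1 / ‖w - 1‖ ≤ 8 := by
    have h3 : 1 / 8 ≤ ‖w - 1‖ := by
      have h4 := Complex.abs_re_le_norm (w - 1)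
      rw [Complex.sub_re, Complex.one_re] at h4
      have h5 : -(w.re - 1) ≤ |w.re - 1| := neg_le_abs _
      linarith
    rw [div_le_iff₀ (by linarith)]
    linarith
  have hn : ‖w‖ / w.re ≤ 1 + 8 * |w.im| := by
    have h4 := Complex.norm_le_abs_re_add_abs_im w
    rw [abs_of_pos hs0] at h4
    rw [div_le_iff₀ hs0]
    have : |w.im| ≤ 8 * |w.im| * w.re := by nlinarith [abs_nonneg w.im]
    nlinarith
  nlinarith [abs_nonneg w.im]

end Pool.Agent.H448R2.GC
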